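import Pool.Agent.RegA.Nil

set_option autoImplicit false

namespace Pool.Agent.RegA

universe u

/-- If the finite `p`-group `P` has the automorphism `φ` without nontrivial fixed points, then
`φ ^ (p ^ a)` has no nontrivial fixed points either. -/
theorem fpf_pow {p : ℕ} [Fact p.Prime] (P : Type u) [Group P] [Finite P] (hP : IsPGroup p P)
    (φ : P ≃* P) (hfix : ∀ g : P, φ g = g → g = 1) (a : ℕ) :
    ∀ g : P, (⇑φ)^[p ^ a] g = g → g = 1 := by
  classical
  have hmul : ∀ (c : ℕ) (x y : P), (⇑φ)^[c] (x * y) = (⇑φ)^[c] x * (⇑φ)^[c] y := by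
    intro c
    induction c with
    | zero => intro x y; rfl
    | succ c ih =>
      intro x y
      rw [Function.iterate_succ_apply, Function.iterate_succ_apply, Function.iterate_succ_apply,
        map_mul, ih]
  have hone : ∀ (c : ℕ), (⇑φ)^[c] (1 : P) = 1 := by
    intro c
    induction c with
    | zero => rfl
    | succ c ih => rw [Function.iterate_succ_apply, map_one, ih]
  have hinv : ∀ (c : ℕ) (x : P), (⇑φ)^[c] x⁻¹ = ((⇑φ)^[c] x)⁻¹ := by
    intro c x
    rw [eq_inv_iff_mul_eq_one, ← hmul, inv_mul_cancel, hone]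
  let C : Subgroup P :=
    { carrier := {x | (⇑φ)^[p ^ a] x = x}
      mul_mem' := by
        intro x y hx hy
        show (⇑φ)^[p ^ a] (x * y) = x * y
        rw [hmul]
        rw [show (⇑φ)^[p ^ a] x = x from hx, show (⇑φ)^[p ^ a] y = y from hy]
      one_mem' := hone _
      inv_mem' := by
        intro x hx
        show (⇑φ)^[p ^ a] x⁻¹ = x⁻¹
        rw [hinv, show (⇑φ)^[p ^ a] x = x from hx] }
  have hC : ∀ x : P, x ∈ C ↔ (⇑φ)^[p ^ a] x = x := fun x => Iff.rfl
  have hφC : ∀ x ∈ C, φ x ∈ C := by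
    intro x hx
    rw [hC] at hx ⊢
    rw [← Function.iterate_succ_apply, Function.iterate_succ_apply', hx]
  let f : Function.End C := fun x => ⟨φ (x : P), hφC x x.2⟩
  have hf : ∀ (c : ℕ) (x : C), (((f ^ c) x : C) : P) = (⇑φ)^[c] (x : P) := by
    intro c
    induction c with
    | zero => intro x; rfl
    | succ c ih =>
      intro x
      rw [pow_succ, Function.iterate_succ_apply]
      exact ih (f x)
  have hf1 : f ^ p ^ a = 1 := by
    funext x
    apply Subtype.ext
    rw [hf]
    exact x.2
  haveI : Fintype C := Fintype.ofFinite C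
  have hcard := Equiv.Perm.card_fixedPoints_modEq hf1
  have hfp : ∀ x : C, f x = x → x = 1 := by
    intro x hx
    apply Subtype.ext
    apply hfix
    exact congrArg (Subtype.val) hx
  have hone' : Fintype.card (Function.fixedPoints f) = 1 := by
    rw [Fintype.card_eq_one_iff]
    refine ⟨⟨1, ?_⟩, ?_⟩
    · show f 1 = 1
      apply Subtype.ext
      show φ 1 = 1
      exact map_one φ
    · rintro ⟨x, hx⟩
      apply Subtype.ext
      exact hfp x hx
  rw [hone'] at hcard
  obtain ⟨k, hk⟩ := IsPGroup.iff_card.1 (hP.to_subgroup C)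
  rw [Nat.card_eq_fintype_card] at hk
  have hk0 : k = 0 := by
    by_contra hk0
    obtain ⟨j, rfl⟩ := Nat.exists_eq_succ_of_ne_zero hk0
    rw [hk] at hcard
    have h1 : p ^ (j + 1) % p = 1 % p := hcard
    have hp1 : 1 < p := (Fact.out : p.Prime).one_lt
    rw [pow_succ, Nat.mul_mod_left, Nat.mod_eq_of_lt hp1] at h1
    exact absurd h1 (by norm_num)
  rw [hk0, pow_zero] at hk
  intro g hg
  obtain ⟨y, hy⟩ := Fintype.card_eq_one_iff.1 hk
  have h1 := hy ⟨g, hg⟩
  have h2 := hy 1
  have h3 : (⟨g, hg⟩ : C) = 1 := by rw [h1, h2]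
  exact congrArg (Subtype.val) h3

/-- a Sylow subgroup of a finite nilpotent group, `p` congruent to `1` modulo the part of `n`
prime to `p` -/
theorem nil_sylow' (n : ℕ) (hn : 0 < n) (G : Type u) [Group G] [Finite G]
    (φ : MulAut G) (hφ : φ ^ n = 1) (hfix : ∀ g : G, φ g = g → g = 1) (p : ℕ) [Fact p.Prime]
    (hp : p ≡ 1 [MOD n / p ^ n.factorization p]) (P : Sylow p G)
    (hP : (P : Subgroup G).Normal) :
    derivedSeries (P : Subgroup G) ((3 ^ (n - 1) - 1) / 2) = ⊥ := by
  have hch : (P : Subgroup G).Characteristic := P.characteristic_of_normal hP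
  have hmap : (P : Subgroup G).map (φ : G →* G) = P :=
    Subgroup.characteristic_iff_map_eq.1 hch φ
  obtain ⟨k, hk⟩ := IsPGroup.iff_card.1 P.isPGroup'
  set a := n.factorization p with ha
  set m := n / p ^ a with hm
  have hdvd : p ^ a ∣ n := Nat.ordProj_dvd n p
  have hnm : p ^ a * m = n := Nat.mul_div_cancel' hdvd
  have hmpos : 0 < m := Nat.pos_of_ne_zero (by rintro h; rw [h, mul_zero] at hnm; omega)
  have hmn : m ≤ n := Nat.div_le_self _ _
  obtain ⟨w, v, D⟩ := exists_dat (p := p) (n := m) (e := k + 1) Fact.out hmpos (Nat.succ_pos k) hp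
  have hit : ∀ (c : ℕ) (x : G), (⇑φ)^[c] x = (φ ^ c) x := by
    intro c
    induction c with
    | zero =>
      intro x
      rfl
    | succ c ih =>
      intro x
      rw [Function.iterate_succ_apply, ih, pow_succ]
      rfl
  have hres : ∀ (c : ℕ) (x : (P : Subgroup G)),
      (((⇑(resA φ (P : Subgroup G) hmap))^[c] x : (P : Subgroup G)) : G) = (⇑φ)^[c] (x : G) := by
    intro c
    induction c with
    | zero =>
      intro x
      rfl
    | succ c ih =>
      intro x
      rw [Function.iterate_succ_apply, Function.iterate_succ_apply, ih, resA_apply]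
  let θ : (P : Subgroup G) ≃* (P : Subgroup G) := resA φ (P : Subgroup G) hmap
  let ψ : (P : Subgroup G) ≃* (P : Subgroup G) := (show MulAut (P : Subgroup G) from θ) ^ (p ^ a)
  have hψ : ∀ x : (P : Subgroup G), ψ x = (⇑θ)^[p ^ a] x := by
    have key : ∀ (c : ℕ) (x : (P : Subgroup G)),
        (((show MulAut (P : Subgroup G) from θ) ^ c : MulAut (P : Subgroup G)) x) =
          (⇑θ)^[c] x := by
      intro c
      induction c with
      | zero => intro x; rfl
      | succ c ih =>
        intro x
        rw [pow_succ, Function.iterate_succ_apply]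
        exact ih (θ x)
    exact key _
  have hψit : ∀ (c : ℕ) (x : (P : Subgroup G)), (⇑ψ)^[c] x = (⇑θ)^[p ^ a * c] x := by
    intro c
    induction c with
    | zero => intro x; rfl
    | succ c ih =>
      intro x
      rw [Function.iterate_succ_apply, hψ, ih, ← Function.iterate_add_apply]
      congr 1
  have hC : Cls p m (k + 1) (P : Subgroup G) ψ := by
    refine ⟨inferInstance, ?_, ?_, ?_⟩
    · intro x
      rw [pow_succ, pow_mul, ← hk, pow_card_eq_one', one_pow]
    · intro x
      rw [hψit, hnm]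
      apply Subtype.ext
      show (((⇑(resA φ (P : Subgroup G) hmap))^[n] x : (P : Subgroup G)) : G) = (x : G)
      rw [hres, hit, hφ]
      rfl
    · intro x hx
      rw [hψ] at hx
      refine fpf_pow (p := p) (P : Subgroup G) P.isPGroup' θ ?_ a x hx
      intro g hg
      apply Subtype.ext
      apply hfix
      rw [← resA_apply φ (P : Subgroup G) hmap g]
      exact congrArg (Subtype.val) hg
  have h1 := pgroup D (P : Subgroup G) _ hC
  have h2 : (3 ^ (m - 1) - 1) / 2 ≤ (3 ^ (n - 1) - 1) / 2 :=
    Nat.div_le_div_right (Nat.sub_le_sub_right (Nat.pow_le_pow_right (by norm_num)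
      (Nat.sub_le_sub_right hmn 1)) 1)
  exact le_bot_iff.1 (h1 ▸ derivedSeries_antitone (P : Subgroup G) h2)

/-- finite nilpotent groups such that each prime divisor `p` of the order is congruent to `1`
modulo the part of `n` prime to `p` -/
theorem nilp' (n : ℕ) (hn : 0 < n) (G : Type u) [Group G] [Finite G] [Group.IsNilpotent G]
    (φ : MulAut G) (hφ : φ ^ n = 1) (hfix : ∀ g : G, φ g = g → g = 1)
    (hp : ∀ p : ℕ, p.Prime → p ∣ Nat.card G → p ≡ 1 [MOD n / p ^ n.factorization p]) :
    derivedSeries G ((3 ^ (n - 1) - 1) / 2) = ⊥ := by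
  have hnil : Group.IsNilpotent G := inferInstance
  obtain ⟨E⟩ := ((Group.isNilpotent_of_finite_tfae (G := G)).out 0 4).1 hnil
  have hnorm := ((Group.isNilpotent_of_finite_tfae (G := G)).out 0 3).1 hnil
  rw [eq_bot_iff]
  intro x hx
  have h1 : E.symm x = 1 := by
    funext p P
    have hpp : (p : ℕ).Prime := Nat.prime_of_mem_primeFactors p.2
    haveI : Fact (p : ℕ).Prime := ⟨hpp⟩
    have h2 := nil_sylow' n hn G φ hφ hfix p
      (hp p hpp (Nat.dvd_of_mem_primeFactors p.2)) P (hnorm p inferInstance P)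
    set f : G →* (P : Subgroup G) :=
      ((Pi.evalMonoidHom (fun P : Sylow (p : ℕ) G => (P : Subgroup G)) P).comp
        (Pi.evalMonoidHom (fun p : (Nat.card G).primeFactors =>
          ∀ P : Sylow (p : ℕ) G, (P : Subgroup G)) p)).comp E.symm.toMonoidHom with hf
    have h3 : f x ∈ derivedSeries (P : Subgroup G) ((3 ^ (n - 1) - 1) / 2) :=
      map_derivedSeries_le_derivedSeries f _ ⟨x, hx, rfl⟩
    rw [h2] at h3
    exact Subgroup.mem_bot.1 h3
  rw [Subgroup.mem_bot]
  have h4 : E (E.symm x) = E 1 := by rw [h1]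
  rw [MulEquiv.apply_symm_apply, map_one] at h4
  exact h4

end Pool.Agent.RegA
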