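import Pool.Agent.RegA.Defs

set_option autoImplicit false

namespace Pool.Agent.RegA

/-- Existence of the numerical data: if `p` is a prime congruent to `1` modulo `n` then there is
an `n`-th root of unity modulo `p ^ e` whose order modulo `p` is `n`
(e.g. `w = g ^ ((p - 1) / n * p ^ (e - 1))` for a primitive root `g` modulo `p`). -/
theorem exists_dat {p n e : ℕ} (hp : p.Prime) (hn : 0 < n) (he : 0 < e) (h : p ≡ 1 [MOD n]) :
    ∃ w v, Dat p n e w v := by
  classical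
  have : Fact p.Prime := ⟨hp⟩
  have hp1 : 1 ≤ p := hp.one_lt.le
  have hdvd : n ∣ p - 1 := (Nat.modEq_iff_dvd' hp1).mp h.symm
  obtain ⟨m, hm⟩ := hdvd
  have hm0 : 0 < m := by
    rcases Nat.eq_zero_or_pos m with h0 | h0
    · exfalso
      have := hp.one_lt
      rw [h0, mul_zero] at hm
      omega
    · exact h0
  have hcop : Nat.Coprime n p := by
    have h1 : Nat.Coprime (p - 1) p := by
      have h2 : Nat.Coprime (p - 1) (p - 1 + 1) := by simp
      rwa [Nat.sub_add_cancel hp1] at h2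
    exact Nat.Coprime.coprime_dvd_left ⟨m, hm⟩ h1
  -- a primitive root
  obtain ⟨g, hg⟩ := IsCyclic.exists_generator (α := (ZMod p)ˣ)
  have hord : orderOf g = p - 1 := by
    rw [orderOf_eq_card_of_forall_mem_zpowers hg, Nat.card_eq_fintype_card, ZMod.card_units]
  have hgc : Nat.Coprime ((g : ZMod p).val) p := ZMod.val_coe_unit_coprime g
  -- the inverse of n
  have hpe : 1 < p ^ e := Nat.one_lt_pow he.ne' hp.one_lt
  obtain ⟨v, hv⟩ := Nat.exists_mul_mod_eq_one_of_coprime (Nat.Coprime.pow_right e hcop) hpe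
  refine ⟨(g : ZMod p).val ^ (m * p ^ (e - 1)), v, ⟨hp, hn, he, ?_, ?_, ?_⟩⟩
  · have h1 : ((g : ZMod p).val ^ (m * p ^ (e - 1))) ^ n =
        (g : ZMod p).val ^ (Nat.totient (p ^ e)) := by
      rw [← pow_mul, Nat.totient_prime_pow hp he, hm]
      congr 1
      ring
    rw [h1]
    exact Nat.ModEq.pow_totient (Nat.Coprime.pow_right e hgc)
  · intro i hi hin hcon
    have h1 : (g : ZMod p) ^ (m * p ^ (e - 1) * i) = 1 := by
      have h2 := (ZMod.natCast_eq_natCast_iff _ _ p).mpr hcon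
      push_cast at h2
      rw [ZMod.natCast_zmod_val, ← pow_mul] at h2
      exact h2
    have h3 : g ^ (m * p ^ (e - 1) * i) = 1 := by
      apply Units.ext
      push_cast
      exact h1
    have h4 := orderOf_dvd_of_pow_eq_one h3
    rw [hord, hm] at h4
    have h5 : m * n ∣ m * (p ^ (e - 1) * i) := by
      rw [mul_comm m n, ← mul_assoc]
      exact h4
    have h6 : n ∣ p ^ (e - 1) * i := Nat.dvd_of_mul_dvd_mul_left hm0 h5
    have h7 : n ∣ i := (Nat.Coprime.pow_right (e - 1) hcop).dvd_of_dvd_mul_left h6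
    exact absurd (Nat.le_of_dvd hi h7) (by omega)
  · show n * v % p ^ e = 1 % p ^ e
    rw [hv.2, Nat.mod_eq_of_lt hpe]

theorem Dat.sum0 {p n e w v : ℕ} (D : Dat p n e w v) {i : ℕ} (h : ¬ n ∣ i) :
    ∑ c ∈ Finset.range n, w ^ (i * c) ≡ 0 [MOD p ^ e] := by
  have hpp := D.hp
  -- w ^ i is not 1 modulo p
  have hwi : ¬ w ^ i ≡ 1 [MOD p] := by
    intro hcon
    have hwp : w ^ n ≡ 1 [MOD p] := D.wn.of_dvd (dvd_pow_self p D.he.ne')
    have h1 : w ^ i ≡ w ^ (i % n) [MOD p] := by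
      conv_lhs => rw [← Nat.div_add_mod i n, pow_add, pow_mul]
      have h2 : (w ^ n) ^ (i / n) ≡ 1 [MOD p] := by
        have := hwp.pow (i / n)
        rwa [one_pow] at this
      have h3 := h2.mul_right (w ^ (i % n))
      rwa [one_mul] at h3
    have h4 : 0 < i % n := Nat.pos_of_ne_zero fun h0 => h (Nat.dvd_of_mod_eq_zero h0)
    exact D.wi (i % n) h4 (Nat.mod_lt _ D.hn) (h1.symm.trans hcon)
  have hcop : IsCoprime ((p ^ e : ℕ) : ℤ) ((w : ℤ) ^ i - 1) := by
    push_cast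
    refine IsCoprime.pow_left ?_
    rw [Prime.coprime_iff_not_dvd (Nat.prime_iff_prime_int.mp hpp)]
    intro hd
    apply hwi
    have : (1 : ℤ) ≡ ((w ^ i : ℕ) : ℤ) [ZMOD (p : ℤ)] := by
      rw [Int.modEq_iff_dvd]
      push_cast
      exact hd
    have h2 : ((1 : ℕ) : ℤ) ≡ ((w ^ i : ℕ) : ℤ) [ZMOD (p : ℤ)] := by exact_mod_cast this
    exact ((Int.natCast_modEq_iff).mp h2).symm
  have hgeo : ((w : ℤ) ^ i - 1) * ∑ c ∈ Finset.range n, ((w : ℤ) ^ i) ^ c =
      ((w : ℤ) ^ i) ^ n - 1 := mul_geom_sum _ _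
  have hdvd : ((p ^ e : ℕ) : ℤ) ∣ ((w : ℤ) ^ i) ^ n - 1 := by
    have h1 : (w ^ i) ^ n ≡ 1 [MOD p ^ e] := by
      rw [← pow_mul, mul_comm i n, pow_mul]
      have := D.wn.pow i
      rwa [one_pow] at this
    have h2 := (Int.natCast_modEq_iff.mpr h1.symm)
    rw [Int.modEq_iff_dvd] at h2
    push_cast at h2 ⊢
    exact h2
  rw [← hgeo] at hdvd
  have h3 := hcop.dvd_of_dvd_mul_left hdvd
  apply (Nat.modEq_zero_iff_dvd).mpr
  have h4 : ((∑ c ∈ Finset.range n, w ^ (i * c) : ℕ) : ℤ) =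
      ∑ c ∈ Finset.range n, ((w : ℤ) ^ i) ^ c := by
    push_cast
    exact Finset.sum_congr rfl fun c _ => pow_mul _ _ _
  rw [← h4] at h3
  exact_mod_cast h3

end Pool.Agent.RegA
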