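import Pool.Agent.RegA.Arith

set_option autoImplicit false

namespace Pool.Agent.RegA

universe u

variable {G G' : Type u} [Group G] [Group G'] {p n e w v : ℕ}

private theorem iter_map (φ : G ≃* G) (φ' : G' ≃* G') (π : G →* G')
    (h : ∀ x, π (φ x) = φ' (π x)) (c : ℕ) (x : G) :
    π ((⇑φ)^[c] x) = (⇑φ')^[c] (π x) := by
  induction c with
  | zero => rfl
  | succ c ih => rw [Function.iterate_succ_apply', Function.iterate_succ_apply', h, ih]

private theorem iter_mem {φ : G ≃* G} {E : Subgroup G} (hE : Inv φ E) {x : G} (hx : x ∈ E)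
    (c : ℕ) : (⇑φ)^[c] x ∈ E := by
  induction c with
  | zero => exact hx
  | succ c ih =>
    rw [Function.iterate_succ_apply']
    exact hE _ ih

theorem prf_map (n w v i : ℕ) (φ : G ≃* G) (φ' : G' ≃* G') (π : G →* G')
    (h : ∀ x, π (φ x) = φ' (π x)) (x : G) :
    π (prf n w v i φ x) = prf n w v i φ' (π x) := by
  unfold prf
  rw [map_pow, map_list_prod, List.map_map]
  refine congrArg (fun l : List G' => l.prod ^ v) (List.map_congr_left fun c _ => ?_)
  simp only [Function.comp_apply, map_pow, iter_map φ φ' π h]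

theorem prf_mem (n w v i : ℕ) {φ : G ≃* G} {E : Subgroup G} (hE : Inv φ E) {x : G} (hx : x ∈ E) :
    prf n w v i φ x ∈ E := by
  unfold prf
  refine Subgroup.pow_mem _ (Subgroup.list_prod_mem _ ?_) _
  intro y hy
  rw [List.mem_map] at hy
  obtain ⟨c, _, rfl⟩ := hy
  exact Subgroup.pow_mem _ (iter_mem hE hx c) _

theorem prf_one (n w v i : ℕ) (φ : G ≃* G) : prf n w v i φ 1 = 1 := by
  have h := prf_map n w v i φ φ (1 : G →* G) (fun x => by simp) 1
  simpa using h.symm

/-- the commutative group structure of an abelian subgroup -/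
private abbrev cg (E : Subgroup G) (hc : ∀ x ∈ E, ∀ y ∈ E, x * y = y * x) : CommGroup E :=
  { (inferInstance : Group E) with mul_comm := fun a b => Subtype.ext (hc a a.2 b b.2) }

/-- the projection in a commutative group -/
private def PP {A : Type u} [CommGroup A] (n w v i : ℕ) (ψ : A →* A) (x : A) : A :=
  (∏ c ∈ Finset.range n, ((⇑ψ)^[c] x) ^ (w ^ ((n - i) * c))) ^ v

private def ψE (φ : G ≃* G) (E : Subgroup G) (hE : Inv φ E) : E →* E :=
  ((φ : G →* G).comp E.subtype).codRestrict E (fun x => hE x x.2)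

private theorem ψE_iter (φ : G ≃* G) (E : Subgroup G) (hE : Inv φ E) (c : ℕ) (x : E) :
    (((⇑(ψE φ E hE))^[c] x : E) : G) = (⇑φ)^[c] (x : G) := by
  induction c with
  | zero => rfl
  | succ c ih =>
    rw [Function.iterate_succ_apply', Function.iterate_succ_apply', ← ih]
    rfl

private theorem list_coe (E : Subgroup G) (hc : ∀ x ∈ E, ∀ y ∈ E, x * y = y * x)
    (f : ℕ → E) (g : ℕ → G) (h : ∀ c, g c = f c) (m : ℕ) :
    letI := cg E hc
    ((List.range m).map g).prod = ((∏ c ∈ Finset.range m, f c : E) : G) := by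
  let _ := cg E hc
  induction m with
  | zero => simp
  | succ m ih =>
    rw [List.range_succ, List.map_append, List.prod_append, Finset.prod_range_succ, ih]
    simp [h]

private theorem prf_coe (n w v i : ℕ) (φ : G ≃* G) (E : Subgroup G) (hE : Inv φ E)
    (hc : ∀ x ∈ E, ∀ y ∈ E, x * y = y * x) (x : E) :
    letI := cg E hc
    prf n w v i φ (x : G) = ((PP n w v i (ψE φ E hE) x : E) : G) := by
  let _ := cg E hc
  unfold prf PP
  rw [list_coe E hc (fun c => ((⇑(ψE φ E hE))^[c] x) ^ (w ^ ((n - i) * c)))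
    (fun c => ((⇑φ)^[c] (x : G)) ^ (w ^ ((n - i) * c))) (fun c => ?_) n]
  · rfl
  · rw [← ψE_iter φ E hE c x]
    rfl

private theorem pow_cong {A : Type u} [Group A] {x : A} {m k l : ℕ} (hx : x ^ m = 1)
    (h : k ≡ l [MOD m]) : x ^ k = x ^ l :=
  pow_eq_pow_iff_modEq.2 (h.of_dvd (orderOf_dvd_of_pow_eq_one hx))

private theorem wpow (D : Dat p n e w v) (c : ℕ) : w ^ (n * c) ≡ 1 [MOD p ^ e] := by
  rw [pow_mul]
  simpa using D.wn.pow c

private theorem PP_mul {A : Type u} [CommGroup A] (n w v i : ℕ) (ψ : A →* A) (x y : A) :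
    PP n w v i ψ (x * y) = PP n w v i ψ x * PP n w v i ψ y := by
  unfold PP
  rw [← mul_pow, ← Finset.prod_mul_distrib]
  congr 1
  have h : ∀ c : ℕ, (⇑ψ)^[c] (x * y) = (⇑ψ)^[c] x * (⇑ψ)^[c] y := by
    intro c
    induction c with
    | zero => rfl
    | succ c ih =>
      rw [Function.iterate_succ_apply', Function.iterate_succ_apply',
        Function.iterate_succ_apply', ih, map_mul]
  refine Finset.prod_congr rfl fun c _ => ?_
  rw [← mul_pow, h]

private theorem PP_hom (D : Dat p n e w v) {A : Type u} [CommGroup A] (ψ : A →* A)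
    (hex : ∀ a : A, a ^ (p ^ e) = 1) (hper : ∀ a : A, (⇑ψ)^[n] a = a) {i : ℕ} (hi : i < n)
    (x : A) : ψ (PP n w v i ψ x) = (PP n w v i ψ x) ^ (w ^ i) := by
  unfold PP
  rw [map_pow, ← pow_mul, mul_comm v, pow_mul, map_prod]
  congr 1
  rw [← Finset.prod_pow]
  -- both sides are products of `g (c + 1)` and `g c`
  have h1 : ∏ c ∈ Finset.range n, ((⇑ψ)^[c + 1] x) ^ (w ^ ((n - i) * (c + 1)) * w ^ i) =
      ∏ c ∈ Finset.range n, ((⇑ψ)^[c] x) ^ (w ^ ((n - i) * c) * w ^ i) := by
    have h2 := Finset.prod_range_succ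
      (fun c => ((⇑ψ)^[c] x) ^ (w ^ ((n - i) * c) * w ^ i)) n
    have h3 := Finset.prod_range_succ'
      (fun c => ((⇑ψ)^[c] x) ^ (w ^ ((n - i) * c) * w ^ i)) n
    have h4 : ((⇑ψ)^[n] x) ^ (w ^ ((n - i) * n) * w ^ i) =
        ((⇑ψ)^[0] x) ^ (w ^ ((n - i) * 0) * w ^ i) := by
      rw [hper, Function.iterate_zero_apply]
      refine pow_cong (hex x) (Nat.ModEq.mul_right _ ?_)
      rw [Nat.mul_zero, pow_zero, mul_comm]
      exact wpow D (n - i)
    rw [h2, h4] at h3
    exact (mul_right_cancel h3).symm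
  have h5 : ∏ c ∈ Finset.range n, ψ (((⇑ψ)^[c] x) ^ (w ^ ((n - i) * c))) =
      ∏ c ∈ Finset.range n, ((⇑ψ)^[c + 1] x) ^ (w ^ ((n - i) * (c + 1)) * w ^ i) := by
    refine Finset.prod_congr rfl fun c _ => ?_
    rw [map_pow, ← Function.iterate_succ_apply' (⇑ψ)]
    refine pow_cong (hex _) ?_
    rw [← pow_add]
    have e1 : (n - i) * (c + 1) + i = (n - i) * c + n * 1 := by
      have : (n - i) + i = n := by omega
      calc (n - i) * (c + 1) + i = (n - i) * c + ((n - i) + i) := by ring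
        _ = _ := by rw [this, mul_one]
    rw [e1, pow_add]
    have h6 := (wpow D 1).mul_left (w ^ ((n - i) * c))
    rw [mul_one (w ^ ((n - i) * c))] at h6
    exact h6.symm
  rw [h5, h1]
  refine Finset.prod_congr rfl fun c _ => ?_
  rw [pow_mul]

private theorem PP_prod (D : Dat p n e w v) {A : Type u} [CommGroup A] (ψ : A →* A)
    (hex : ∀ a : A, a ^ (p ^ e) = 1) (x : A) :
    ∏ i ∈ Finset.range n, PP n w v i ψ x = x := by
  unfold PP
  rw [Finset.prod_pow, Finset.prod_comm]
  have h1 : ∀ c ∈ Finset.range n, ∏ i ∈ Finset.range n,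
      ((⇑ψ)^[c] x) ^ (w ^ ((n - i) * c)) = if c = 0 then x ^ n else 1 := by
    intro c hc
    rw [Finset.prod_pow_eq_pow_sum]
    rcases Nat.eq_zero_or_pos c with h0 | h0
    · subst h0
      simp
    · rw [if_neg (by omega)]
      have hcn : c < n := Finset.mem_range.1 hc
      have h2 : ¬ n ∣ c := fun h => by
        have := Nat.le_of_dvd h0 h
        omega
      have h3 : ∑ i ∈ Finset.range n, w ^ ((n - i) * c) ≡ 0 [MOD p ^ e] := by
        have e1 : ∑ i ∈ Finset.range n, w ^ ((n - i) * c) =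
            ∑ i ∈ Finset.range n, w ^ ((i + 1) * c) := by
          rw [← Finset.sum_range_reflect]
          refine Finset.sum_congr rfl fun i hi => ?_
          have : i < n := Finset.mem_range.1 hi
          congr 2
          omega
        have e2 := Finset.sum_range_succ (fun i => w ^ (i * c)) n
        have e3 := Finset.sum_range_succ' (fun i => w ^ (i * c)) n
        have e4 : ∑ i ∈ Finset.range n, w ^ (i * c) ≡ 0 [MOD p ^ e] := by
          have := D.sum0 h2
          simpa [mul_comm c] using this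
        rw [e1]
        have e5 : ∑ i ∈ Finset.range n, w ^ ((i + 1) * c) + 1 ≡ 0 + 1 [MOD p ^ e] := by
          have e6 : ∑ i ∈ Finset.range n, w ^ ((i + 1) * c) + 1 =
              ∑ i ∈ Finset.range n, w ^ (i * c) + w ^ (n * c) := by
            rw [← e2, e3]
            simp
          rw [e6]
          exact e4.add (wpow D c)
        exact Nat.ModEq.add_right_cancel' 1 e5
      rw [pow_cong (hex _) h3, pow_zero]
  rw [Finset.prod_congr rfl h1, Finset.prod_ite_eq' (Finset.range n) 0 (fun _ => x ^ n),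
    if_pos (Finset.mem_range.2 D.hn), ← pow_mul]
  rw [pow_cong (hex x) D.vn, pow_one]

theorem prf_mul (n w v i : ℕ) {φ : G ≃* G} {E : Subgroup G} (hE : Inv φ E)
    (hc : ∀ x ∈ E, ∀ y ∈ E, x * y = y * x) {x y : G} (hx : x ∈ E) (hy : y ∈ E) :
    prf n w v i φ (x * y) = prf n w v i φ x * prf n w v i φ y := by
  let _ := cg E hc
  have h1 := prf_coe n w v i φ E hE hc ⟨x, hx⟩
  have h2 := prf_coe n w v i φ E hE hc ⟨y, hy⟩
  have h3 := prf_coe n w v i φ E hE hc (⟨x, hx⟩ * ⟨y, hy⟩)
  have h4 := PP_mul n w v i (ψE φ E hE) ⟨x, hx⟩ ⟨y, hy⟩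
  rw [h4] at h3
  exact h3.trans (congrArg₂ (· * ·) h1.symm h2.symm)

theorem prf_inv (n w v i : ℕ) {φ : G ≃* G} {E : Subgroup G} (hE : Inv φ E)
    (hc : ∀ x ∈ E, ∀ y ∈ E, x * y = y * x) {x : G} (hx : x ∈ E) :
    prf n w v i φ x⁻¹ = (prf n w v i φ x)⁻¹ := by
  have h := prf_mul n w v i hE hc (E.inv_mem hx) hx
  rw [inv_mul_cancel, prf_one] at h
  exact eq_inv_of_mul_eq_one_left h.symm

/-- the values of `prf i` on an abelian invariant subgroup are homogeneous of degree `i` -/
theorem prf_hom (D : Dat p n e w v) {φ : G ≃* G} (hC : Cls p n e G φ) {E : Subgroup G}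
    (hE : Inv φ E) (hc : ∀ x ∈ E, ∀ y ∈ E, x * y = y * x) {i : ℕ} (hi : i < n) {x : G}
    (hx : x ∈ E) : φ (prf n w v i φ x) = (prf n w v i φ x) ^ (w ^ i) := by
  let _ := cg E hc
  have h1 := prf_coe n w v i φ E hE hc ⟨x, hx⟩
  have h2 := PP_hom D (ψE φ E hE) (fun a => Subtype.ext (hC.ex (a : G)))
    (fun a => Subtype.ext ((ψE_iter φ E hE n a).trans (hC.per (a : G)))) hi ⟨x, hx⟩
  have h3 := congrArg (fun a : E => (a : G)) h2
  rw [show prf n w v i φ x = _ from h1]
  exact h3

/-- an element of an abelian invariant subgroup is the product of its projections -/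
theorem prf_prod (D : Dat p n e w v) {φ : G ≃* G} (hC : Cls p n e G φ) {E : Subgroup G}
    (hE : Inv φ E) (hc : ∀ x ∈ E, ∀ y ∈ E, x * y = y * x) {x : G} (hx : x ∈ E) :
    ((List.range n).map fun i => prf n w v i φ x).prod = x := by
  let _ := cg E hc
  have h1 := list_coe E hc (fun i => PP n w v i (ψE φ E hE) ⟨x, hx⟩)
    (fun i => prf n w v i φ x) (fun i => prf_coe n w v i φ E hE hc ⟨x, hx⟩) n
  have h2 := PP_prod D (ψE φ E hE) (fun a => Subtype.ext (hC.ex (a : G))) ⟨x, hx⟩
  have h3 := congrArg (fun a : E => (a : G)) h2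
  exact h1.trans h3

private theorem hom_iter {φ : G ≃* G} {i : ℕ} {x : G} (hx : φ x = x ^ (w ^ i)) (c : ℕ) :
    (⇑φ)^[c] x = x ^ (w ^ (i * c)) := by
  induction c with
  | zero => simp
  | succ c ih =>
    rw [Function.iterate_succ_apply', ih, map_pow, hx, ← pow_mul, ← pow_add]
    congr 2
    ring

private theorem prf_homog (n w v j : ℕ) {φ : G ≃* G} {i : ℕ} {x : G}
    (hx : φ x = x ^ (w ^ i)) :
    prf n w v j φ x = x ^ ((∑ c ∈ Finset.range n, w ^ ((i + (n - j)) * c)) * v) := by
  unfold prf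
  rw [pow_mul]
  congr 1
  have key : ∀ m : ℕ, ((List.range m).map fun c => ((⇑φ)^[c] x) ^ (w ^ ((n - j) * c))).prod =
      x ^ (∑ c ∈ Finset.range m, w ^ ((i + (n - j)) * c)) := by
    intro m
    induction m with
    | zero => simp
    | succ m ih =>
      rw [List.range_succ, List.map_append, List.prod_append, Finset.sum_range_succ, ih,
        pow_add]
      congr 1
      simp only [List.map_cons, List.map_nil, List.prod_cons, List.prod_nil, mul_one]
      rw [hom_iter hx, ← pow_mul, ← pow_add]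
      congr 2
      ring
  exact key n

theorem prf_self (D : Dat p n e w v) {φ : G ≃* G} (hC : Cls p n e G φ) {i : ℕ} (hi : i < n)
    {x : G} (hx : φ x = x ^ (w ^ i)) : prf n w v i φ x = x := by
  rw [prf_homog n w v i hx]
  have e1 : i + (n - i) = n := by omega
  rw [e1]
  have h1 : ∑ c ∈ Finset.range n, w ^ (n * c) ≡ n [MOD p ^ e] := by
    have h2 : ∀ m : ℕ, ∑ c ∈ Finset.range m, w ^ (n * c) ≡ m [MOD p ^ e] := by
      intro m
      induction m with
      | zero => simpa using Nat.ModEq.refl 0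
      | succ m ih =>
        rw [Finset.sum_range_succ]
        exact ih.add (wpow D m)
    exact h2 n
  rw [pow_cong (hC.ex x) ((h1.mul_right v).trans D.vn), pow_one]

theorem prf_other (D : Dat p n e w v) {φ : G ≃* G} (hC : Cls p n e G φ) {i j : ℕ} (hi : i < n)
    (hj : j < n) (hij : i ≠ j) {x : G} (hx : φ x = x ^ (w ^ i)) : prf n w v j φ x = 1 := by
  rw [prf_homog n w v j hx]
  have h1 : ¬ n ∣ i + (n - j) := by
    rintro ⟨c, hc⟩
    rcases c with _ | _ | c
    · omega
    · omega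
    · have : n * (c + 1 + 1) = n * c + 2 * n := by ring
      have h2 : 0 ≤ n * c := Nat.zero_le _
      omega
  have h2 := (D.sum0 h1).mul_right v
  rw [Nat.zero_mul] at h2
  rw [pow_cong (hC.ex x) h2, pow_zero]

end Pool.Agent.RegA
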