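import Pool.Agent.RegA.Basic
import Pool.Agent.RegA.Proj

set_option autoImplicit false

namespace Pool.Agent.RegA

universe u

variable {G : Type u} [Group G] {p n e w v : ℕ} {φ : G ≃* G}

/-- a nontrivial normal subgroup of a finite `p`-group meets the center nontrivially -/
private theorem exists_center (hp : p.Prime) [Finite G] (hG : IsPGroup p G) (N : Subgroup G)
    [N.Normal] (h : N ≠ ⊥) : ∃ x ∈ N, x ≠ 1 ∧ x ∈ Subgroup.center G := by
  have : Fact p.Prime := ⟨hp⟩
  have hG' : IsPGroup p (ConjAct G) := hG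
  have hdvd : p ∣ Nat.card N := by
    have : Nontrivial N := (Subgroup.nontrivial_iff_ne_bot N).mpr h
    obtain ⟨k, hk⟩ := IsPGroup.iff_card.mp (hG.to_subgroup N)
    rcases Nat.eq_zero_or_pos k with h0 | h0
    · rw [h0, pow_zero] at hk
      have : 1 < Nat.card N := Finite.one_lt_card
      omega
    · rw [hk]
      exact dvd_pow_self p h0.ne'
  have h1 : (1 : N) ∈ MulAction.fixedPoints (ConjAct G) N := by
    intro g
    exact smul_one g
  obtain ⟨b, hb, hb1⟩ := hG'.exists_fixed_point_of_prime_dvd_card_of_fixed_point N hdvd h1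
  refine ⟨b, b.2, ?_, ?_⟩
  · intro h2
    apply hb1
    exact Subtype.ext h2.symm
  · rw [Subgroup.mem_center_iff]
    intro g
    have h2 := hb (ConjAct.toConjAct g)
    have h3 : g * (b : G) * g⁻¹ = b := by
      have h4 := congrArg (Subtype.val) h2
      rw [ConjAct.Subgroup.val_conj_smul] at h4
      exact h4
    calc g * (b : G) = (g * (b : G) * g⁻¹) * g := by group
      _ = b * g := by rw [h3]

private theorem prf_pow (n w v i : ℕ) {φ : G ≃* G} {E : Subgroup G} (hE : Inv φ E)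
    (hc : ∀ x ∈ E, ∀ y ∈ E, x * y = y * x) {x : G} (hx : x ∈ E) (k : ℕ) :
    prf n w v i φ (x ^ k) = (prf n w v i φ x) ^ k := by
  induction k with
  | zero => rw [pow_zero, pow_zero, prf_one]
  | succ k ih => rw [pow_succ, pow_succ, prf_mul n w v i hE hc (E.pow_mem hx k) hx, ih]

/-- Every nontrivial invariant normal subgroup contains a nontrivial central homogeneous element
of order `p` (and its degree is not `0`): take `x ≠ 1` with `x ^ p = 1` in `N ⊓ center G`, and a
nontrivial `prf i x`. -/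
theorem centr (D : Dat p n e w v) (hC : Cls p n e G φ) (N : Subgroup G) [N.Normal]
    (hN : Inv φ N) (h : N ≠ ⊥) :
    ∃ z ∈ N, z ≠ 1 ∧ z ^ p = 1 ∧ z ∈ Subgroup.center G ∧
      ∃ i, 0 < i ∧ i < n ∧ φ z = z ^ (w ^ i) := by
  have := hC.fin
  have : Fact p.Prime := ⟨D.hp⟩
  obtain ⟨y, hyN, hy1, hyc⟩ := exists_center D.hp hC.isPGroup N h
  -- an element of order `p`
  obtain ⟨x, hxN, hx1, hxc, hxp⟩ :
      ∃ x ∈ N, x ≠ 1 ∧ x ∈ Subgroup.center G ∧ x ^ p = 1 := by
    classical
    have hex : ∃ k, y ^ (p ^ k) = 1 := ⟨e, hC.ex y⟩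
    have hs := Nat.find_spec hex
    have hm : ∀ k, k < Nat.find hex → ¬ y ^ (p ^ k) = 1 := fun k hk => Nat.find_min hex hk
    have h0 : Nat.find hex ≠ 0 := by
      intro h0
      rw [h0, pow_zero, pow_one] at hs
      exact hy1 hs
    obtain ⟨k, hk⟩ := Nat.exists_eq_succ_of_ne_zero h0
    refine ⟨y ^ (p ^ k), N.pow_mem hyN _, hm k (by omega), Subgroup.pow_mem _ hyc _, ?_⟩
    rw [← pow_mul, ← pow_succ]
    rw [hk] at hs
    exact hs
  let E : Subgroup G := N ⊓ Subgroup.center G
  have hE : Inv φ E := by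
    intro a ha
    refine ⟨hN a ha.1, ?_⟩
    refine Subgroup.mem_center_iff.mpr ?_
    intro g
    have h2 := Subgroup.mem_center_iff.mp ha.2 (φ.symm g)
    have h3 := congrArg φ h2
    simpa using h3
  have hc : ∀ a ∈ E, ∀ b ∈ E, a * b = b * a := fun a _ b hb =>
    Subgroup.mem_center_iff.mp hb.2 a
  have hxE : x ∈ E := ⟨hxN, hxc⟩
  have hprod := prf_prod D hC hE hc hxE
  obtain ⟨i, hi, hz⟩ : ∃ i < n, prf n w v i φ x ≠ 1 := by
    by_contra hcon
    push Not at hcon
    apply hx1
    rw [← hprod]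
    apply List.prod_eq_one
    intro a ha
    obtain ⟨i, hi, rfl⟩ := List.mem_map.mp ha
    exact hcon i (List.mem_range.mp hi)
  have hzE : prf n w v i φ x ∈ E := prf_mem n w v i hE hxE
  have hzh := prf_hom D hC hE hc hi hxE
  refine ⟨prf n w v i φ x, hzE.1, hz, ?_, hzE.2, i, ?_, hi, hzh⟩
  · rw [← prf_pow n w v i hE hc hxE, hxp, prf_one]
  · rcases Nat.eq_zero_or_pos i with h0 | h0
    · exfalso
      apply hz
      apply hC.fpf
      rw [hzh, h0, pow_zero, pow_one]
    · exact h0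

end Pool.Agent.RegA
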