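import Pool.Agent.RegA.Lift
import Pool.Agent.RegA.Centr

set_option autoImplicit false

namespace Pool.Agent.RegA

universe u

/-- `G` is generated by its homogeneous elements of degrees `1, ..., n - 1`. Strong induction on
`Nat.card G`: if `G ≠ 1` take `z` from `centr` (for `N = ⊤`), `Q = zpowers z`; `G / Q` is
generated by homogeneous elements (`Cls.quo`, induction), they lift (`HH_map` for
`π = QuotientGroup.mk' Q`), and `z ∈ HH n w 1 φ`. -/
theorem baseC {p n e w v : ℕ} (D : Dat p n e w v) (G : Type u) [Group G] (φ : G ≃* G)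
    (hC : Cls p n e G φ) : HH n w 1 φ = ⊤ := by
  suffices H : ∀ m : ℕ, ∀ (G : Type u) [Group G] (φ : G ≃* G), Cls p n e G φ →
      Nat.card G = m → HH n w 1 φ = ⊤ from H _ G φ hC rfl
  intro m
  induction m using Nat.strong_induction_on with
  | _ m ih =>
  intro G _ φ hC hm
  have hfin := hC.fin
  by_cases hG : (⊤ : Subgroup G) = ⊥
  · rw [eq_top_iff, hG]
    exact bot_le
  · obtain ⟨z, -, hz1, -, hzc, i, hi0, hin, hzi⟩ :=
      centr D hC (⊤ : Subgroup G) (fun x _ => Subgroup.mem_top _) hG
    have hQc : Subgroup.zpowers z ≤ Subgroup.center G := by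
      rw [Subgroup.zpowers_le]
      exact hzc
    have hnorm : (Subgroup.zpowers z).Normal := by
      constructor
      intro a ha g
      have h1 := Subgroup.mem_center_iff.mp (hQc ha) g
      have h2 : g * a * g⁻¹ = a := by
        rw [h1]
        group
      rw [h2]
      exact ha
    have hQinv : Inv φ (Subgroup.zpowers z) := by
      intro x hx
      obtain ⟨k, rfl⟩ := Subgroup.mem_zpowers_iff.1 hx
      rw [map_zpow, hzi]
      exact Subgroup.zpow_mem _ (Subgroup.pow_mem _ (Subgroup.mem_zpowers z) _) _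
    have hmap : (Subgroup.zpowers z).map (φ : G →* G) = Subgroup.zpowers z := hQinv.map_eq
    have hcard : Nat.card (G ⧸ Subgroup.zpowers z) < m := by
      rw [← hm, Subgroup.card_eq_card_quotient_mul_card_subgroup (Subgroup.zpowers z)]
      have h1 : 0 < Nat.card (G ⧸ Subgroup.zpowers z) := Nat.card_pos
      have h2 : 1 < Nat.card (Subgroup.zpowers z) := by
        rw [Finite.one_lt_card_iff_nontrivial, Subgroup.nontrivial_iff_ne_bot]
        intro h
        exact hz1 (Subgroup.zpowers_eq_bot.1 h)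
      exact (Nat.lt_mul_iff_one_lt_right h1).2 h2
    have h1 := ih _ hcard (G ⧸ Subgroup.zpowers z) (quoA φ _ hmap) (hC.quo _ hmap) rfl
    have h2 := HH_map (φ' := quoA φ _ hmap) D hC (QuotientGroup.mk' (Subgroup.zpowers z))
      (QuotientGroup.mk'_surjective _) (by rw [QuotientGroup.ker_mk']; exact hQc)
      (fun x => rfl) 1
    rw [h1] at h2
    have hz : z ∈ HH n w 1 φ := mem_HH hi0 hin hzi
    rw [eq_top_iff]
    intro x _
    have h3 : QuotientGroup.mk' (Subgroup.zpowers z) x ∈
        (HH n w 1 φ).map (QuotientGroup.mk' (Subgroup.zpowers z)) := by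
      rw [h2]
      exact Subgroup.mem_top _
    obtain ⟨y, hy, hyx⟩ := h3
    have h4 : y⁻¹ * x ∈ Subgroup.zpowers z := QuotientGroup.eq.1 hyx
    have h5 : y⁻¹ * x ∈ HH n w 1 φ := (Subgroup.zpowers_le.2 hz) h4
    have h6 : x = y * (y⁻¹ * x) := by group
    rw [h6]
    exact mul_mem hy h5

end Pool.Agent.RegA
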