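import Pool.Agent.RegA.Defs

set_option autoImplicit false

namespace Pool.Agent.RegA

universe u

variable {G : Type u} [Group G] {p n e w v : ℕ} {φ : G ≃* G}

theorem Inv.map_eq [Finite G] {H : Subgroup G} (h : Inv φ H) : H.map (φ : G →* G) = H := by
  have h1 : H.map (φ : G →* G) ≤ H := by
    rintro _ ⟨x, hx, rfl⟩
    exact h x hx
  refine Subgroup.eq_of_le_of_card_ge h1 (le_of_eq ?_)
  exact Nat.card_congr (H.equivMapOfInjective (φ : G →* G) φ.injective).toEquiv

private theorem quoA_iter (φ : G ≃* G) (N : Subgroup G) [N.Normal]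
    (h : N.map (φ : G →* G) = N) (k : ℕ) (x : G) :
    (⇑(quoA φ N h))^[k] (QuotientGroup.mk' N x) = QuotientGroup.mk' N ((⇑φ)^[k] x) := by
  induction k generalizing x with
  | zero => rfl
  | succ k ih =>
    rw [Function.iterate_succ_apply, Function.iterate_succ_apply, quoA_mk, ih]

private theorem resA_iter (φ : G ≃* G) (H : Subgroup G)
    (h : H.map (φ : G →* G) = H) (k : ℕ) (x : H) :
    (((⇑(resA φ H h))^[k] x : H) : G) = (⇑φ)^[k] (x : G) := by
  induction k generalizing x with
  | zero => rfl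
  | succ k ih =>
    rw [Function.iterate_succ_apply, Function.iterate_succ_apply, ih, resA_apply]

/-- fixed points of `φ` on `G / N` lift to fixed points (`a ↦ a⁻¹ * φ a` is injective on `N`,
hence bijective), so `φ` is fixed-point-free on `G / N`. -/
theorem Cls.quo (hC : Cls p n e G φ) (N : Subgroup G) [N.Normal]
    (h : N.map (φ : G →* G) = N) : Cls p n e (G ⧸ N) (quoA φ N h) := by
  have hfin := hC.fin
  refine ⟨inferInstance, ?_, ?_, ?_⟩
  · intro x
    obtain ⟨g, rfl⟩ := QuotientGroup.mk'_surjective N x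
    rw [← map_pow, hC.ex, map_one]
  · intro x
    obtain ⟨g, rfl⟩ := QuotientGroup.mk'_surjective N x
    rw [quoA_iter, hC.per]
  · intro x hx
    obtain ⟨g, rfl⟩ := QuotientGroup.mk'_surjective N x
    rw [quoA_mk] at hx
    have h1 : g⁻¹ * φ g ∈ N := by
      have h2 : QuotientGroup.mk' N (g⁻¹ * φ g) = 1 := by
        rw [map_mul, hx, map_inv, inv_mul_cancel]
      exact (QuotientGroup.eq_one_iff _).1 h2
    have hN : ∀ a ∈ N, φ a ∈ N := by
      intro a ha
      rw [← h]
      exact ⟨a, ha, rfl⟩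
    have hinj : Function.Injective
        (fun a : N => (⟨(a : G)⁻¹ * φ a, N.mul_mem (N.inv_mem a.2) (hN a a.2)⟩ : N)) := by
      intro a b hab
      have h3 : (a : G)⁻¹ * φ a = (b : G)⁻¹ * φ b := congrArg Subtype.val hab
      have h4 : φ ((b : G) * (a : G)⁻¹) = (b : G) * (a : G)⁻¹ := by
        rw [map_mul, map_inv, mul_inv_eq_iff_eq_mul, mul_assoc, h3, mul_inv_cancel_left]
      have h5 := hC.fpf _ h4
      exact Subtype.ext (mul_inv_eq_one.1 h5).symm
    obtain ⟨a, ha⟩ := Finite.surjective_of_injective hinj ⟨_, h1⟩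
    have h3 : (a : G)⁻¹ * φ a = g⁻¹ * φ g := congrArg Subtype.val ha
    have h4 : φ (g * (a : G)⁻¹) = g * (a : G)⁻¹ := by
      rw [map_mul, map_inv, mul_inv_eq_iff_eq_mul, mul_assoc, h3, mul_inv_cancel_left]
    have h5 := hC.fpf _ h4
    have h6 : g = a := mul_inv_eq_one.1 h5
    rw [h6]
    exact (QuotientGroup.eq_one_iff _).2 a.2

theorem Cls.res (hC : Cls p n e G φ) (H : Subgroup G) (h : H.map (φ : G →* G) = H) :
    Cls p n e H (resA φ H h) := by
  have hfin := hC.fin
  refine ⟨inferInstance, ?_, ?_, ?_⟩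
  · intro x
    refine Subtype.ext ?_
    rw [Subgroup.coe_pow, hC.ex, Subgroup.coe_one]
  · intro x
    refine Subtype.ext ?_
    rw [resA_iter, hC.per]
  · intro x hx
    refine Subtype.ext ?_
    have h1 := congrArg (fun y : H => (y : G)) hx
    rw [resA_apply] at h1
    exact hC.fpf _ h1

theorem Cls.isPGroup (hC : Cls p n e G φ) : IsPGroup p G := fun x => ⟨e, hC.ex x⟩

theorem inv_derivedSeries (φ : G ≃* G) (s : ℕ) : Inv φ (derivedSeries G s) := by
  intro x hx
  have h1 : (derivedSeries G s).Characteristic := derivedSeries_characteristic G s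
  exact Subgroup.characteristic_iff_le_comap.1 h1 φ hx

theorem derivedSeries_map_subtype (a b : ℕ) :
    (derivedSeries (derivedSeries G a) b).map (derivedSeries G a).subtype =
      derivedSeries G (a + b) := by
  induction b with
  | zero =>
    rw [derivedSeries_zero, ← MonoidHom.range_eq_map, Subgroup.range_subtype, add_zero]
  | succ b ih =>
    rw [derivedSeries_succ, Subgroup.map_commutator, ih, ← add_assoc, derivedSeries_succ]

/-- the derived series of a quotient -/
theorem derivedSeries_map_mk' (N : Subgroup G) [N.Normal] (s : ℕ) :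
    (derivedSeries G s).map (QuotientGroup.mk' N) = derivedSeries (G ⧸ N) s :=
  map_derivedSeries_eq (QuotientGroup.mk'_surjective N) s

theorem HH_inv (n w k : ℕ) (φ : G ≃* G) : Inv φ (HH n w k φ) := by
  intro x hx
  unfold HH at hx ⊢
  induction hx using Subgroup.closure_induction with
  | mem x hx =>
    obtain ⟨i, h1, h2, h3⟩ := hx
    refine Subgroup.subset_closure ⟨i, h1, h2, ?_⟩
    conv_lhs => rw [h3]
    rw [map_pow]
  | one => rw [map_one]; exact one_mem _
  | mul x y _ _ hx hy => rw [map_mul]; exact mul_mem hx hy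
  | inv x _ hx => rw [map_inv]; exact inv_mem hx

theorem HH_mono (n w : ℕ) {k l : ℕ} (h : k ≤ l) (φ : G ≃* G) : HH n w l φ ≤ HH n w k φ := by
  refine Subgroup.closure_mono ?_
  rintro x ⟨i, h1, h2, h3⟩
  exact ⟨i, h.trans h1, h2, h3⟩

theorem HH_eq_bot (n w k : ℕ) (h : n ≤ k) (φ : G ≃* G) : HH n w k φ = ⊥ := by
  unfold HH
  rw [Subgroup.closure_eq_bot_iff]
  rintro x ⟨i, h1, h2, _⟩
  omega

theorem mem_HH {n w k : ℕ} {φ : G ≃* G} {i : ℕ} (h : k ≤ i) (hi : i < n) {x : G}
    (hx : φ x = x ^ (w ^ i)) : x ∈ HH n w k φ :=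
  Subgroup.subset_closure ⟨i, h, hi, hx⟩

end Pool.Agent.RegA
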