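import Pool.Agent.RegA.Centr

set_option autoImplicit false

namespace Pool.Agent.RegA

universe u

variable {G : Type u} [Group G] {p n e w v : ℕ} {φ : G ≃* G}

/-- Apply `centr` to the image of `M` in `G / C` (`Cls.quo`). -/
theorem chief (D : Dat p n e w v) (hC : Cls p n e G φ) (C M : Subgroup G) [C.Normal] [M.Normal]
    (hCi : Inv φ C) (hMi : Inv φ M) (hlt : C < M) :
    ∃ x ∈ M, x ∉ C ∧ (∀ g, x * g * x⁻¹ * g⁻¹ ∈ C) ∧
      ∃ i, i < n ∧ ∃ c ∈ C, φ x = x ^ (w ^ i) * c := by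
  have := hC.fin
  have hCm : C.map (φ : G →* G) = C := hCi.map_eq
  have hQ := hC.quo C hCm
  have : (M.map (QuotientGroup.mk' C)).Normal :=
    Subgroup.Normal.map inferInstance _ (QuotientGroup.mk'_surjective C)
  have hinv : Inv (quoA φ C hCm) (M.map (QuotientGroup.mk' C)) := by
    rintro _ ⟨m, hm, rfl⟩
    rw [quoA_mk]
    exact ⟨φ m, hMi m hm, rfl⟩
  have hmk : ∀ g : G, QuotientGroup.mk' C g = 1 ↔ g ∈ C := fun g => by
    rw [← MonoidHom.mem_ker, QuotientGroup.ker_mk']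
  have hne : M.map (QuotientGroup.mk' C) ≠ ⊥ := by
    intro hb
    obtain ⟨m, hm, hmC⟩ := Set.exists_of_ssubset hlt
    apply hmC
    have h1 : QuotientGroup.mk' C m ∈ M.map (QuotientGroup.mk' C) := ⟨m, hm, rfl⟩
    rw [hb, Subgroup.mem_bot] at h1
    exact (hmk m).mp h1
  obtain ⟨z, ⟨x, hx, rfl⟩, hz1, -, hzc, i, -, hi, hz⟩ :=
    centr D hQ (M.map (QuotientGroup.mk' C)) hinv hne
  refine ⟨x, hx, fun h => hz1 ((hmk x).mpr h), ?_, i, hi, (x ^ (w ^ i))⁻¹ * φ x, ?_, by group⟩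
  · intro g
    rw [← hmk]
    have h2 := Subgroup.mem_center_iff.mp hzc (QuotientGroup.mk' C g)
    rw [map_mul, map_mul, map_mul, ← h2, map_inv, map_inv]
    group
  · rw [← hmk, map_mul, map_inv, map_pow, ← quoA_mk φ C hCm, hz]
    group

end Pool.Agent.RegA
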