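import Mathlib

/-!
# RegA: fixed-point-free automorphisms, split primes (MP_2cd00b_al)

`p` a prime, `n` the order of the automorphism, `p ^ e` an exponent of the group,
`w` a natural number which is a root of unity of order `n` modulo `p ^ e` (and modulo `p`),
`v` an inverse of `n` modulo `p ^ e`.
-/

set_option autoImplicit false

namespace Pool.Agent.RegA

universe u

/-- numerical data -/
structure Dat (p n e w v : ℕ) : Prop where
  hp : p.Prime
  hn : 0 < n
  he : 0 < e
  wn : w ^ n ≡ 1 [MOD p ^ e]
  wi : ∀ i, 0 < i → i < n → ¬ w ^ i ≡ 1 [MOD p]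
  vn : n * v ≡ 1 [MOD p ^ e]

/-- the class of finite `p`-groups of exponent dividing `p ^ e` with a fixed-point-free
automorphism `φ` with `φ ^ n = 1`. -/
structure Cls (p n e : ℕ) (G : Type u) [Group G] (φ : G ≃* G) : Prop where
  fin : Finite G
  ex : ∀ x : G, x ^ (p ^ e) = 1
  per : ∀ x : G, (⇑φ)^[n] x = x
  fpf : ∀ x : G, φ x = x → x = 1

variable {G : Type u} [Group G]

/-- `H` is mapped into itself by `φ`. -/
def Inv (φ : G ≃* G) (H : Subgroup G) : Prop := ∀ x ∈ H, φ x ∈ H

/-- the subgroup generated by the homogeneous elements of degrees `k, ..., n - 1`;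
`x` is homogeneous of degree `i` if `φ x = x ^ (w ^ i)`. -/
def HH (n w k : ℕ) (φ : G ≃* G) : Subgroup G :=
  Subgroup.closure {x | ∃ i, k ≤ i ∧ i < n ∧ φ x = x ^ (w ^ i)}

/-- restriction of `φ` to an invariant subgroup -/
def resA (φ : G ≃* G) (H : Subgroup G) (h : H.map (φ : G →* G) = H) : H ≃* H :=
  (φ.subgroupMap H).trans (MulEquiv.subgroupCongr h)

theorem resA_apply (φ : G ≃* G) (H : Subgroup G) (h : H.map (φ : G →* G) = H) (x : H) :
    ((resA φ H h x : H) : G) = φ (x : G) := rfl

/-- the automorphism induced by `φ` on the quotient by an invariant normal subgroup -/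
def quoA (φ : G ≃* G) (N : Subgroup G) [N.Normal] (h : N.map (φ : G →* G) = N) :
    G ⧸ N ≃* G ⧸ N := QuotientGroup.congr N N φ h

theorem quoA_mk (φ : G ≃* G) (N : Subgroup G) [N.Normal] (h : N.map (φ : G →* G) = N) (x : G) :
    quoA φ N h (QuotientGroup.mk' N x) = QuotientGroup.mk' N (φ x) := rfl

/-- the projection to the homogeneous elements of degree `i` (used on abelian invariant
subgroups; as a function it is defined everywhere). -/
def prf (n w v i : ℕ) (φ : G ≃* G) (x : G) : G :=
  (((List.range n).map fun c => ((⇑φ)^[c] x) ^ (w ^ ((n - i) * c))).prod) ^ v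

end Pool.Agent.RegA
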