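import Pool.Agent.RegA.LemB0

set_option autoImplicit false

namespace Pool.Agent.RegA

universe u

variable {G : Type u} [Group G] {p n e w v : ℕ} {φ : G ≃* G}

/-- the elements of `E` whose projection of degree `k` is in `P` -/
private def KK (n w v k : ℕ) (P E : Subgroup G) (hE : Inv φ E)
    (hEc : ∀ x ∈ E, ∀ y ∈ E, x * y = y * x) : Subgroup E where
  carrier := {x | prf n w v k φ (x : G) ∈ P}
  mul_mem' {a b} ha hb := by
    change prf n w v k φ ((a : G) * (b : G)) ∈ P
    rw [prf_mul n w v k hE hEc a.2 b.2]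
    exact P.mul_mem ha hb
  one_mem' := by
    change prf n w v k φ (1 : G) ∈ P
    rw [prf_one]
    exact P.one_mem
  inv_mem' {a} ha := by
    change prf n w v k φ ((a : G)⁻¹) ∈ P
    rw [prf_inv n w v k hE hEc a.2]
    exact P.inv_mem ha

private theorem mem_KK (n w v k : ℕ) (P E : Subgroup G) (hE : Inv φ E)
    (hEc : ∀ x ∈ E, ∀ y ∈ E, x * y = y * x) (x : E) :
    x ∈ KK n w v k P E hE hEc ↔ prf n w v k φ (x : G) ∈ P := Iff.rfl

/-- conjugation -/
private def cj (E : Subgroup G) [E.Normal] (u : G) : E ≃* E where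
  toFun x := ⟨u * x * u⁻¹, Subgroup.Normal.conj_mem inferInstance _ x.2 u⟩
  invFun x := ⟨u⁻¹ * x * u, by
    have h := Subgroup.Normal.conj_mem (H := E) inferInstance _ x.2 u⁻¹
    rwa [inv_inv] at h⟩
  left_inv x := by
    apply Subtype.ext
    change u⁻¹ * (u * x * u⁻¹) * u = x
    group
  right_inv x := by
    apply Subtype.ext
    change u * (u⁻¹ * x * u) * u⁻¹ = x
    group
  map_mul' x y := by
    apply Subtype.ext
    change u * (x * y) * u⁻¹ = (u * x * u⁻¹) * (u * y * u⁻¹)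
    group

private theorem cj_apply (E : Subgroup G) [E.Normal] (u : G) (x : E) :
    ((cj E u x : E) : G) = u * x * u⁻¹ := rfl

private theorem cj_iter (E : Subgroup G) [E.Normal] (u : G) (r : ℕ) (x : E) :
    (((⇑(cj E u))^[r] x : E) : G) = u ^ r * x * (u ^ r)⁻¹ := by
  induction r with
  | zero => simp
  | succ r ih =>
    rw [Function.iterate_succ_apply', cj_apply, ih, pow_succ']
    group

/-- One homogeneous element. -/
private theorem lemB1 (D : Dat p n e w v) (hC : Cls p n e G φ) {k : ℕ} (hk : k < n)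
    (P : Subgroup G)
    (hP : Inv φ P) (hPd : ∀ x i, k < i → i < n → φ x = x ^ (w ^ i) → x ∈ P)
    (E : Subgroup G) [E.Normal] (hE : Inv φ E) (hEc : ∀ x ∈ E, ∀ y ∈ E, x * y = y * x)
    {u : G} {m : ℕ} (hkm : k ≤ m) (hm : m < n) (hu : φ u = u ^ (w ^ m)) (x : E) :
    cj E u x * x⁻¹ ∈ KK n w v k P E hE hEc := by
  have hfin : Finite G := hC.fin
  letI iE : CommGroup E :=
    { (inferInstance : Group E) with
      mul_comm := fun a b => Subtype.ext (hEc a a.2 b b.2) }
  have h := hE.map_eq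
  have h1 := lemB0 (A := E) D (φ := resA φ E h) (hC.res E h) (cj E u)
    ⟨e, fun y => by
      apply Subtype.ext
      rw [cj_iter, hC.ex u, one_mul, inv_one, mul_one]⟩ m
    (fun y => by
      apply Subtype.ext
      rw [cj_iter, resA_apply, resA_apply, cj_apply, map_mul, map_mul, map_inv, hu])
    k hk (KK n w v k P E hE hEc)
    (fun y => by
      have h2 : ((prf n w v k (resA φ E h) y : E) : G) = prf n w v k φ (y : G) :=
        prf_map n w v k (resA φ E h) φ E.subtype (fun _ => rfl) y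
      rw [mem_KK, mem_KK, h2, prf_self D hC hk (prf_hom D hC hE hEc hk y.2)])
    (fun d y hd hy hdm => by
      have hyG : φ (y : G) = (y : G) ^ (w ^ d) := congrArg (fun z : E => (z : G)) hy
      rcases Nat.lt_or_ge (d + m) n with h2 | h2
      · rw [Nat.mod_eq_of_lt h2] at hdm
        have hd0 : d = 0 := by omega
        rw [hd0, pow_zero, pow_one] at hyG
        have hy1 : y = 1 := Subtype.ext (hC.fpf _ hyG)
        rw [hy1, map_one, div_one]
        exact one_mem _
      · have h3 : d + m - n = k := by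
          rw [Nat.mod_eq_sub_mod h2, Nat.mod_eq_of_lt (by omega)] at hdm
          exact hdm
        have hyP : (y : G) ∈ P := hPd _ d (by omega) hd hyG
        have huP : u ∈ P := hPd _ m (by omega) hm hu
        rw [mem_KK]
        refine prf_mem n w v k hP ?_
        rw [div_eq_mul_inv]
        exact P.mul_mem (P.mul_mem (P.mul_mem huP hyP) (P.inv_mem huP)) (P.inv_mem hyP)) x
  rw [div_eq_mul_inv] at h1
  exact h1

/-- Lemma B. For `u` homogeneous of degree `m`, `k ≤ m < n`, apply `lemB0` to `A = E` (as a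
commutative group), `U` = conjugation by `u`, `K = {x | prf k x ∈ P}`; if `x` is homogeneous of
degree `d` with `(d + m) % n = k` then either `m = k`, `d = 0` and `x = 1`, or `d > k`, `m > k`,
so `x, u ∈ P`. For products and inverses:
`[x, u₁ u₂] = [x, u₁] * [y, u₁]⁻¹ * y` with `y = [x, u₂]`, and `[x, u⁻¹] = [u⁻¹ x u, u]⁻¹`. -/
theorem lemB (D : Dat p n e w v) (hC : Cls p n e G φ) {k : ℕ} (hk : k < n) (P : Subgroup G)
    (hP : Inv φ P) (hPd : ∀ x i, k < i → i < n → φ x = x ^ (w ^ i) → x ∈ P)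
    (E : Subgroup G) [E.Normal] (hE : Inv φ E) (hEc : ∀ x ∈ E, ∀ y ∈ E, x * y = y * x)
    {x u : G} (hx : x ∈ E) (hu : u ∈ HH n w k φ) :
    prf n w v k φ (x * u * x⁻¹ * u⁻¹) ∈ P := by
  have key : ∀ u ∈ HH n w k φ, ∀ x : E, cj E u x * x⁻¹ ∈ KK n w v k P E hE hEc := by
    intro u hu
    unfold HH at hu
    induction hu using Subgroup.closure_induction with
    | mem u hu =>
      obtain ⟨m, hkm, hm, hum⟩ := hu
      exact fun x => lemB1 D hC hk P hP hPd E hE hEc hkm hm hum x
    | one =>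
      intro x
      have h1 : cj E (1 : G) x * x⁻¹ = 1 := by
        apply Subtype.ext
        change 1 * (x : G) * 1⁻¹ * (x : G)⁻¹ = 1
        group
      rw [h1]
      exact one_mem _
    | mul a b _ _ iha ihb =>
      intro x
      have h1 : cj E (a * b) x * x⁻¹ =
          (cj E a (cj E b x) * (cj E b x)⁻¹) * (cj E b x * x⁻¹) := by
        apply Subtype.ext
        change (a * b) * (x : G) * (a * b)⁻¹ * (x : G)⁻¹ =
          (a * (b * x * b⁻¹) * a⁻¹ * (b * x * b⁻¹)⁻¹) * (b * x * b⁻¹ * (x : G)⁻¹)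
        group
      rw [h1]
      exact mul_mem (iha _) (ihb _)
    | inv a _ iha =>
      intro x
      have h1 : cj E a⁻¹ x * x⁻¹ = (cj E a (cj E a⁻¹ x) * (cj E a⁻¹ x)⁻¹)⁻¹ := by
        apply Subtype.ext
        change a⁻¹ * (x : G) * a⁻¹⁻¹ * (x : G)⁻¹ =
          (a * (a⁻¹ * x * a⁻¹⁻¹) * a⁻¹ * (a⁻¹ * x * a⁻¹⁻¹)⁻¹)⁻¹
        group
      rw [h1]
      exact inv_mem (iha _)
  have h2 := inv_mem (key u hu ⟨x, hx⟩)
  rw [mem_KK] at h2
  have h3 : (((cj E u ⟨x, hx⟩ * (⟨x, hx⟩ : E)⁻¹)⁻¹ : E) : G) = x * u * x⁻¹ * u⁻¹ := by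
    change (u * x * u⁻¹ * x⁻¹)⁻¹ = x * u * x⁻¹ * u⁻¹
    group
  rw [h3] at h2
  exact h2

end Pool.Agent.RegA
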