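import Pool.Agent.RegA.Basic
import Pool.Agent.RegA.Proj

set_option autoImplicit false

namespace Pool.Agent.RegA

universe u

private theorem nil_delta {A : Type u} [CommGroup A] {p e : ℕ} (hp : p.Prime)
    (hex : ∀ x : A, x ^ (p ^ e) = 1) (U : A ≃* A) (hU : ∃ r, ∀ x, (⇑U)^[p ^ r] x = x) :
    ∃ N, ∀ x : A, (fun y => U y / y)^[N] x = 1 := by
  obtain ⟨r, hr⟩ := hU
  let u : AddMonoid.End (Additive A) := MonoidHom.toAdditive (U : A →* A)
  let d : AddMonoid.End (Additive A) := u - 1
  have hu : ∀ (k : ℕ) (x : A), (u ^ k) (Additive.ofMul x) = Additive.ofMul ((⇑U)^[k] x) := by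
    intro k
    induction k with
    | zero =>
      intro x
      rfl
    | succ k ih =>
      intro x
      rw [pow_succ, Function.iterate_succ_apply]
      exact ih (U x)
  have hd : ∀ (k : ℕ) (x : A), (d ^ k) (Additive.ofMul x) =
      Additive.ofMul ((fun y => U y / y)^[k] x) := by
    intro k
    induction k with
    | zero =>
      intro x
      rfl
    | succ k ih =>
      intro x
      rw [pow_succ, Function.iterate_succ_apply]
      exact ih (U x / x)
  have h1 : u ^ (p ^ r) = 1 := by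
    ext x
    exact (hu (p ^ r) x.toMul).trans (congrArg Additive.ofMul (hr x.toMul))
  have h2 : (1 : AddMonoid.End (Additive A)) + d = u := by
    simp only [d]
    abel
  obtain ⟨s, hs⟩ := (Commute.one_left d).exists_add_pow_prime_pow_eq hp r
  rw [h2, h1, one_pow, mul_one] at hs
  have h3 : d ^ (p ^ r) = (p : AddMonoid.End (Additive A)) * (-(d * s)) := by
    have h4 : d ^ (p ^ r) + (p : AddMonoid.End (Additive A)) * d * s = 0 := by
      have h5 : (1 : AddMonoid.End (Additive A)) + (d ^ (p ^ r) +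
          (p : AddMonoid.End (Additive A)) * d * s) = 1 + 0 := by
        rw [← add_assoc, ← hs, add_zero]
      exact add_left_cancel h5
    rw [eq_neg_of_add_eq_zero_left h4, mul_assoc]
    exact (mul_neg (p : AddMonoid.End (Additive A)) (d * s)).symm
  have h4 : ((p : AddMonoid.End (Additive A))) ^ e = 0 := by
    rw [← Nat.cast_pow]
    ext x
    rw [AddMonoid.End.natCast_apply]
    exact congrArg Additive.ofMul (hex x.toMul)
  have h5 : d ^ (p ^ r * e) = 0 := by
    rw [pow_mul, h3, (Nat.cast_commute p (-(d * s))).mul_pow, h4, zero_mul]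
  refine ⟨p ^ r * e, fun x => ?_⟩
  have h6 := hd (p ^ r * e) x
  rw [h5] at h6
  exact (congrArg Additive.toMul h6).symm

private theorem pow_wmod {p n e w v : ℕ} (D : Dat p n e w v) {G : Type u} [Group G] {x : G}
    (hx : x ^ (p ^ e) = 1) (s : ℕ) : x ^ (w ^ s) = x ^ (w ^ (s % n)) := by
  rw [pow_eq_pow_iff_modEq]
  refine Nat.ModEq.of_dvd (orderOf_dvd_of_pow_eq_one hx) ?_
  have h : w ^ s = (w ^ n) ^ (s / n) * w ^ (s % n) := by
    rw [← pow_mul, ← pow_add, Nat.div_add_mod]
  have h1 : (w ^ n) ^ (s / n) * w ^ (s % n) ≡ 1 ^ (s / n) * w ^ (s % n) [MOD p ^ e] :=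
    (D.wn.pow _).mul_right _
  rw [one_pow, one_mul, ← h] at h1
  exact h1

private def YY {A : Type u} [CommGroup A] (δ : A →* A) : ℕ → Subgroup A
  | 0 => ⊤
  | r + 1 => (YY δ r).map δ

/-- Abelian form of Lemma B. Write `Y r` for the image of `(U - 1) ^ r` (a subgroup of `A`,
invariant under `φ`: `φ (U - 1) = (U ^ a - 1) φ` with `a = w ^ m`). `Y r = ⊥` for large `r`
(`U` has `p`-power order and `A` has `p`-power exponent; `(U - 1) ^ (p ^ r)` is divisible by `p`).
Descending induction on `r ≥ 1`: `Y r ≤ K`. Let `g = U y / y` with `y ∈ Y (r - 1)`; we may assume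
that `y` is homogeneous of degree `d` (`prf_prod`, `prf_mem`). Then
`φ g = (U ^ a - 1) (y ^ (w ^ d)) ∈ g ^ (w ^ (d + m)) Y (r + 1)`. If `(d + m) % n = k` the
hypothesis `h0` gives `g ∈ K`; otherwise `prf k g ∈ Y (r + 1) ≤ K` (`prf_map`, `prf_other` in
`A / Y (r + 1)`) and `hK` gives `g ∈ K`. -/
theorem lemB0 {A : Type u} [CommGroup A] {p n e w v : ℕ} (D : Dat p n e w v) {φ : A ≃* A}
    (hC : Cls p n e A φ) (U : A ≃* A) (hU : ∃ r, ∀ x, (⇑U)^[p ^ r] x = x) (m : ℕ)
    (hφU : ∀ x, φ (U x) = (⇑U)^[w ^ m] (φ x)) (k : ℕ) (hk : k < n) (K : Subgroup A)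
    (hK : ∀ x, x ∈ K ↔ prf n w v k φ x ∈ K)
    (h0 : ∀ d x, d < n → φ x = x ^ (w ^ d) → (d + m) % n = k → U x / x ∈ K) :
    ∀ x, U x / x ∈ K := by
  classical
  have hfin : Finite A := hC.fin
  let δ : A →* A := (U : A →* A) / MonoidHom.id A
  have hδ : ∀ x, δ x = U x / x := fun x => rfl
  obtain ⟨N, hN⟩ := nil_delta D.hp hC.ex U hU
  have hdec : ∀ r, YY δ (r + 1) ≤ YY δ r := by
    intro r
    induction r with
    | zero => exact le_top
    | succ r ih => exact Subgroup.map_mono ih
  have hδY : ∀ r y, y ∈ YY δ r → δ y ∈ YY δ (r + 1) :=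
    fun r y hy => Subgroup.mem_map_of_mem δ hy
  have hUY : ∀ r y, y ∈ YY δ r → U y ∈ YY δ r := by
    intro r y hy
    have h1 := hdec r (hδY r y hy)
    have h2 : U y = δ y * y := by rw [hδ, div_mul_cancel]
    rw [h2]
    exact mul_mem h1 hy
  have hUiY : ∀ r a y, y ∈ YY δ r → (⇑U)^[a] y ∈ YY δ r := by
    intro r a
    induction a with
    | zero =>
      intro y hy
      exact hy
    | succ a ih =>
      intro y hy
      rw [Function.iterate_succ_apply]
      exact ih _ (hUY r y hy)
  have hA : ∀ r a z, z ∈ YY δ r → (⇑U)^[a] z / z ∈ YY δ (r + 1) := by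
    intro r a z hz
    induction a with
    | zero =>
      rw [Function.iterate_zero_apply, div_self']
      exact one_mem _
    | succ a ih =>
      rw [Function.iterate_succ_apply']
      have h1 : U ((⇑U)^[a] z) / z = δ ((⇑U)^[a] z) * ((⇑U)^[a] z / z) := by
        rw [hδ, div_mul_div_cancel]
      rw [h1]
      exact mul_mem (hδY r _ (hUiY r a z hz)) ih
  have hA' : ∀ r a z, z ∈ YY δ r → (⇑U)^[a] z / z / (δ z) ^ a ∈ YY δ (r + 2) := by
    intro r a z hz
    induction a with
    | zero =>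
      rw [Function.iterate_zero_apply, div_self', pow_zero, div_self']
      exact one_mem _
    | succ a ih =>
      rw [Function.iterate_succ_apply']
      have h1 : U ((⇑U)^[a] z) / z / (δ z) ^ (a + 1) =
          δ ((⇑U)^[a] z / z) * ((⇑U)^[a] z / z / (δ z) ^ a) := by
        rw [map_div, hδ ((⇑U)^[a] z), pow_succ', div_mul_div_comm, div_mul_div_cancel]
      rw [h1]
      exact mul_mem (hδY (r + 1) _ (hA r a z hz)) ih
  have hφδ : ∀ y, φ (δ y) = (⇑U)^[w ^ m] (φ y) / φ y := by
    intro y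
    rw [hδ, map_div, hφU]
  have hφY : ∀ r, Inv φ (YY δ r) := by
    intro r
    induction r with
    | zero =>
      intro x _
      exact Subgroup.mem_top _
    | succ r ih =>
      rintro x ⟨y, hy, rfl⟩
      rw [hφδ]
      exact hA r _ _ (ih y hy)
  have hYN : ∀ r y, y ∈ YY δ r → ∃ x, (fun y => U y / y)^[r] x = y := by
    intro r
    induction r with
    | zero =>
      intro y _
      exact ⟨y, rfl⟩
    | succ r ih =>
      rintro y ⟨z, hz, rfl⟩
      obtain ⟨x, hx⟩ := ih z hz
      refine ⟨x, ?_⟩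
      rw [Function.iterate_succ_apply', hx]
      rfl
  have hbase : YY δ (N + 1) ≤ K := by
    intro y hy
    obtain ⟨x, hx⟩ := hYN N y (hdec N hy)
    rw [← hx, hN x]
    exact one_mem K
  have hstep : ∀ r, YY δ (r + 2) ≤ K → YY δ (r + 1) ≤ K := by
    intro r hr
    rintro g ⟨y, hy, rfl⟩
    have hy' : y ∈ YY δ r := hy
    have hc : ∀ x ∈ YY δ r, ∀ y ∈ YY δ r, x * y = y * x := fun x _ y _ => mul_comm x y
    rw [← prf_prod D hC (hφY r) hc hy', map_list_prod]
    refine Subgroup.list_prod_mem K ?_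
    intro g hg
    rw [List.map_map, List.mem_map] at hg
    obtain ⟨d, hd, rfl⟩ := hg
    rw [List.mem_range] at hd
    have ht : prf n w v d φ y ∈ YY δ r := prf_mem n w v d (hφY r) hy'
    have htφ : φ (prf n w v d φ y) = (prf n w v d φ y) ^ (w ^ d) :=
      prf_hom D hC (hφY r) hc hd hy'
    change δ (prf n w v d φ y) ∈ K
    revert ht htφ
    generalize prf n w v d φ y = t
    intro ht htφ
    by_cases hdm : (d + m) % n = k
    · exact h0 d t hd htφ hdm
    · have hnor : (YY δ (r + 2)).Normal := inferInstance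
      have hmap : (YY δ (r + 2)).map (φ : A →* A) = YY δ (r + 2) := Inv.map_eq (hφY (r + 2))
      have hCq := hC.quo (YY δ (r + 2)) hmap
      have h1 : φ (δ t) / (δ t) ^ (w ^ (d + m)) ∈ YY δ (r + 2) := by
        have h2 := hA' r (w ^ m) (φ t) (hφY r t ht)
        have h4 : δ (φ t) ^ (w ^ m) = (δ t) ^ (w ^ (d + m)) := by
          rw [htφ, map_pow, ← pow_mul, ← pow_add]
        rw [hφδ, ← h4]
        exact h2
      have h5 : quoA φ _ hmap (QuotientGroup.mk' (YY δ (r + 2)) (δ t)) =
          (QuotientGroup.mk' (YY δ (r + 2)) (δ t)) ^ (w ^ ((d + m) % n)) := by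
        rw [quoA_mk, ← pow_wmod D (hCq.ex _), ← map_pow]
        exact QuotientGroup.eq_iff_div_mem.2 h1
      have h6 : prf n w v k (quoA φ _ hmap) (QuotientGroup.mk' (YY δ (r + 2)) (δ t)) = 1 :=
        prf_other D hCq (Nat.mod_lt _ D.hn) hk hdm h5
      have h7 := prf_map n w v k φ (quoA φ _ hmap) (QuotientGroup.mk' (YY δ (r + 2)))
        (fun x => (quoA_mk φ _ hmap x).symm) (δ t)
      rw [h6] at h7
      have h8 : prf n w v k φ (δ t) ∈ YY δ (r + 2) := (QuotientGroup.eq_one_iff _).1 h7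
      exact (hK _).2 (hr h8)
  have hall : ∀ j, j ≤ N → YY δ (N - j + 1) ≤ K := by
    intro j
    induction j with
    | zero =>
      intro _
      exact hbase
    | succ j ih =>
      intro hj
      have h1 : N - j + 1 = N - (j + 1) + 2 := by omega
      refine hstep _ ?_
      rw [← h1]
      exact ih (by omega)
  intro x
  refine hall N le_rfl ?_
  rw [Nat.sub_self]
  exact hδY 0 x (Subgroup.mem_top x)

end Pool.Agent.RegA
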