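import Pool.Agent.RegA.LemB
import Pool.Agent.RegA.Chief

set_option autoImplicit false

namespace Pool.Agent.RegA

universe u

variable {G : Type u} [Group G] {p n e w v : ℕ} {φ : G ≃* G}

/-- Lemma G. Let `M = derivedSeries G s`, `C = M ⊓ centralizer M`. If `C = M` then `M` is abelian.
Otherwise take `x` from `chief` (for `C < M`), `E = C ⊔ zpowers x` (abelian, normal, invariant).
For `u ∈ M ≤ HH n w k φ` Lemma B gives `prf k [x, u] ∈ P`, but `[x, u] ∈ derivedSeries G (s + 1)` is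
homogeneous of degree `k`, so `[x, u] = prf k [x, u] ∈ P ⊓ derivedSeries G (s + 1) = ⊥`. Hence
`x ∈ C`, a contradiction. -/
theorem lemG (D : Dat p n e w v) (hC : Cls p n e G φ) {k : ℕ} (hk : k < n) (s : ℕ)
    (h1 : derivedSeries G s ≤ HH n w k φ) (P : Subgroup G) (hP : Inv φ P)
    (hPd : ∀ x i, k < i → i < n → φ x = x ^ (w ^ i) → x ∈ P)
    (hcen : derivedSeries G (s + 1) ≤ Subgroup.center G)
    (hdis : P ⊓ derivedSeries G (s + 1) = ⊥)
    (hhom : ∀ x ∈ derivedSeries G (s + 1), φ x = x ^ (w ^ k)) :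
    derivedSeries G (s + 1) = ⊥ := by
  have : Finite G := hC.fin
  obtain ⟨M, hM⟩ : ∃ M, M = derivedSeries G s := ⟨_, rfl⟩
  have hMn : M.Normal := by rw [hM]; infer_instance
  have hMi : Inv φ M := by rw [hM]; exact inv_derivedSeries φ s
  rw [← hM] at h1
  have hsucc : derivedSeries G (s + 1) = ⁅M, M⁆ := by rw [derivedSeries_succ, hM]
  obtain ⟨C, hCd⟩ : ∃ C, C = M ⊓ Subgroup.centralizer (M : Set G) := ⟨_, rfl⟩
  have hCn : C.Normal := by
    rw [hCd]
    have : (Subgroup.centralizer (M : Set G)).Normal := inferInstance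
    infer_instance
  have hCM : C ≤ M := by rw [hCd]; exact inf_le_left
  have hCc : ∀ c ∈ C, ∀ m ∈ M, Commute c m := by
    intro c hc m hm
    rw [hCd] at hc
    exact (Subgroup.mem_centralizer_iff.mp hc.2 m hm).symm
  have hMs : ∀ m ∈ M, ∃ m' ∈ M, φ m' = m := by
    intro m hm
    have h := hMi.map_eq
    rw [← h] at hm
    exact hm
  have hCi : Inv φ C := by
    intro c hc
    rw [hCd]
    refine ⟨hMi c (hCM hc), Subgroup.mem_centralizer_iff.mpr fun m hm => ?_⟩
    obtain ⟨m', hm', rfl⟩ := hMs m hm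
    have := hCc c hc m' hm'
    rw [← map_mul, ← map_mul, this.eq]
  by_cases hCMe : C = M
  · rw [hsucc, Subgroup.commutator_eq_bot_iff_le_centralizer]
    intro m hm
    have hm' : m ∈ C := by rw [hCMe]; exact hm
    rw [hCd] at hm'
    exact hm'.2
  · exfalso
    obtain ⟨x, hxM, hxC, hxg, i, hi, c0, hc0, hφx⟩ :=
      chief D hC C M hCi hMi (lt_of_le_of_ne hCM hCMe)
    obtain ⟨E, hEd⟩ : ∃ E, E = C ⊔ Subgroup.zpowers x := ⟨_, rfl⟩
    have hCE : C ≤ E := by rw [hEd]; exact le_sup_left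
    have hxE : x ∈ E := by
      rw [hEd]; exact Subgroup.mem_sup_right (Subgroup.mem_zpowers x)
    have hEm : ∀ a ∈ E, ∃ c ∈ C, ∃ j : ℤ, a = c * x ^ j := by
      intro a ha
      rw [hEd, Subgroup.mem_sup_of_normal_left] at ha
      obtain ⟨c, hc, z, hz, rfl⟩ := ha
      obtain ⟨j, rfl⟩ := Subgroup.mem_zpowers_iff.mp hz
      exact ⟨c, hc, j, rfl⟩
    have hEc : ∀ a ∈ E, ∀ b ∈ E, a * b = b * a := by
      intro a ha b hb
      obtain ⟨c, hc, j, rfl⟩ := hEm a ha
      obtain ⟨c', hc', j', rfl⟩ := hEm b hb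
      have e1 : Commute c c' := hCc c hc c' (hCM hc')
      have e2 : Commute c (x ^ j') := (hCc c hc x hxM).zpow_right j'
      have e3 : Commute (x ^ j) c' := ((hCc c' hc' x hxM).zpow_right j).symm
      have e4 : Commute (x ^ j) (x ^ j') := (Commute.refl x).zpow_zpow j j'
      exact (Commute.mul_right (Commute.mul_left e1 e3) (Commute.mul_left e2 e4)).eq
    have hEn : E.Normal := by
      constructor
      intro a ha g
      obtain ⟨c, hc, j, rfl⟩ := hEm a ha
      have e1 : g * (c * x ^ j) * g⁻¹ = (g * c * g⁻¹) * (g * x * g⁻¹) ^ j := by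
        rw [conj_zpow]; group
      rw [e1]
      refine E.mul_mem (hCE (hCn.conj_mem c hc g)) (E.zpow_mem ?_ j)
      have e2 : g * x * g⁻¹ = (x * g * x⁻¹ * g⁻¹)⁻¹ * x := by group
      rw [e2]
      exact E.mul_mem (hCE (C.inv_mem (hxg g))) hxE
    have hEi : Inv φ E := by
      intro a ha
      obtain ⟨c, hc, j, rfl⟩ := hEm a ha
      rw [map_mul, map_zpow]
      refine E.mul_mem (hCE (hCi c hc)) (E.zpow_mem ?_ j)
      rw [hφx]
      exact E.mul_mem (E.pow_mem hxE _) (hCE hc0)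
    apply hxC
    rw [hCd]
    refine ⟨hxM, Subgroup.mem_centralizer_iff.mpr fun u hu => ?_⟩
    have hcom : x * u * x⁻¹ * u⁻¹ ∈ derivedSeries G (s + 1) := by
      rw [hsucc]
      have := Subgroup.commutator_mem_commutator hxM hu
      rwa [commutatorElement_def] at this
    have hpr := lemB D hC hk P hP hPd E hEi hEc hxE (h1 hu)
    rw [prf_self D hC hk (hhom _ hcom)] at hpr
    have hbot : x * u * x⁻¹ * u⁻¹ ∈ P ⊓ derivedSeries G (s + 1) := ⟨hpr, hcom⟩
    rw [hdis, Subgroup.mem_bot] at hbot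
    have h5 : x * u = u * x := by
      calc x * u = (x * u * x⁻¹ * u⁻¹) * (u * x) := by group
        _ = u * x := by rw [hbot, one_mul]
    exact h5.symm

end Pool.Agent.RegA
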