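import Pool.Agent.RegA.Basic
import Pool.Agent.RegA.Proj

set_option autoImplicit false

namespace Pool.Agent.RegA

universe u

variable {G G' : Type u} [Group G] [Group G'] {p n e w v : ℕ} {φ : G ≃* G} {φ' : G' ≃* G'}

/-- Homogeneous elements lift along central invariant subgroups. Proof: `E = Q ⊔ zpowers x` is
abelian and invariant; take `y = prf i x`. By `prf_prod` it is enough that `prf j x ∈ Q` for
`j ≠ i`: apply `prf_map` and `prf_other` in `G / Q` (or directly: `φ^[c] x ∈ x ^ (w ^ (i c)) Q`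
and `Dat.sum0`). -/
theorem lift_elt (D : Dat p n e w v) (hC : Cls p n e G φ) (Q : Subgroup G)
    (hQc : Q ≤ Subgroup.center G) (hQ : Inv φ Q) {i : ℕ} (hi : i < n) (x : G)
    (hx : ∃ q ∈ Q, φ x = x ^ (w ^ i) * q) :
    ∃ y, φ y = y ^ (w ^ i) ∧ ∃ q ∈ Q, y = x * q := by
  obtain ⟨q, hq, hxq⟩ := hx
  have hfin : Finite G := hC.fin
  have hnorm : Q.Normal := by
    constructor
    intro a ha g
    have h1 := Subgroup.mem_center_iff.mp (hQc ha) g
    have h2 : g * a * g⁻¹ = a := by
      rw [h1, mul_assoc, mul_inv_cancel, mul_one]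
    rw [h2]
    exact ha
  -- the abelian invariant subgroup
  let S : Set G := (Q : Set G) ∪ {x}
  let E : Subgroup G := Subgroup.closure S
  have hxE : x ∈ E := Subgroup.subset_closure (Or.inr rfl)
  have hQE : ∀ a ∈ Q, a ∈ E := fun a ha => Subgroup.subset_closure (Or.inl ha)
  have hEi : Inv φ E := by
    intro a ha
    have h1 : E ≤ E.comap (φ : G →* G) := by
      rw [Subgroup.closure_le]
      rintro b (hb | hb)
      · exact hQE _ (hQ b hb)
      · have hb' : b = x := hb
        subst hb'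
        change φ b ∈ E
        rw [hxq]
        exact E.mul_mem (E.pow_mem hxE _) (hQE q hq)
    exact h1 ha
  have hSc : ∀ a ∈ S, ∀ b ∈ S, a * b = b * a := by
    rintro a (ha | ha) b (hb | hb)
    · exact Subgroup.mem_center_iff.mp (hQc hb) a
    · exact (Subgroup.mem_center_iff.mp (hQc ha) b).symm
    · exact Subgroup.mem_center_iff.mp (hQc hb) a
    · have ha' : a = x := ha
      have hb' : b = x := hb
      rw [ha', hb']
  have hEc : ∀ a ∈ E, ∀ b ∈ E, a * b = b * a := by
    have h1 : E ≤ Subgroup.centralizer S := by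
      rw [Subgroup.closure_le]
      intro a ha
      change a ∈ Subgroup.centralizer S
      rw [Subgroup.mem_centralizer_iff]
      intro b hb
      exact hSc b hb a ha
    have h2 : E ≤ Subgroup.centralizer (E : Set G) := by
      rw [Subgroup.closure_le]
      intro a ha
      change a ∈ Subgroup.centralizer (E : Set G)
      rw [Subgroup.mem_centralizer_iff]
      intro b hb
      exact ((Subgroup.mem_centralizer_iff.mp (h1 hb)) a ha).symm
    intro a ha b hb
    exact (Subgroup.mem_centralizer_iff.mp (h2 hb)) a ha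
  refine ⟨prf n w v i φ x, prf_hom D hC hEi hEc hi hxE, x⁻¹ * prf n w v i φ x, ?_, by group⟩
  have hm : Q.map (φ : G →* G) = Q := hQ.map_eq
  have hC' := hC.quo Q hm
  have h3 : quoA φ Q hm (QuotientGroup.mk' Q x) = (QuotientGroup.mk' Q x) ^ (w ^ i) := by
    rw [quoA_mk, hxq, map_mul, map_pow]
    have h4 : QuotientGroup.mk' Q q = 1 := (QuotientGroup.eq_one_iff q).mpr hq
    rw [h4, mul_one]
  have h5 := prf_self D hC' hi h3
  have h6 := prf_map n w v i φ (quoA φ Q hm) (QuotientGroup.mk' Q) (fun a => (quoA_mk φ Q hm a).symm) x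
  rw [h5] at h6
  exact QuotientGroup.eq.mp h6.symm

theorem HH_map (D : Dat p n e w v) (hC : Cls p n e G φ) (π : G →* G')
    (hπ : Function.Surjective π) (hker : π.ker ≤ Subgroup.center G)
    (hcomp : ∀ x, π (φ x) = φ' (π x)) (k : ℕ) :
    (HH n w k φ).map π = HH n w k φ' := by
  apply le_antisymm
  · rw [Subgroup.map_le_iff_le_comap, HH, Subgroup.closure_le]
    rintro x ⟨i, hk, hi, hx⟩
    change π x ∈ HH n w k φ'
    refine mem_HH hk hi ?_
    rw [← hcomp, hx, map_pow]
  · rw [HH, Subgroup.closure_le]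
    rintro x' ⟨i, hk, hi, hx'⟩
    obtain ⟨x, rfl⟩ := hπ x'
    have hQ : Inv φ π.ker := by
      intro a ha
      rw [MonoidHom.mem_ker] at ha ⊢
      rw [hcomp, ha, map_one]
    obtain ⟨y, hy, q, hq, hyq⟩ := lift_elt D hC π.ker hker hQ hi x
      ⟨(x ^ (w ^ i))⁻¹ * φ x, by
        rw [MonoidHom.mem_ker, map_mul, map_inv, map_pow, hcomp, hx', inv_mul_cancel],
        by group⟩
    refine ⟨y, mem_HH hk hi hy, ?_⟩
    rw [hyq, map_mul, MonoidHom.mem_ker.mp hq, mul_one]

end Pool.Agent.RegA
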