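import Pool.Agent.RegA.StepD
import Pool.Agent.RegA.Base

set_option autoImplicit false

namespace Pool.Agent.RegA

universe u

/-- `C(k) → C(k + 1)`: apply `hCk` to `M = derivedSeries G (2 s + 1)` and `stepD`. -/
theorem stepC {p n e w v : ℕ} (D : Dat p n e w v) {k : ℕ} (hk : k < n) (s : ℕ)
    (hCk : ∀ (G' : Type u) [Group G'] (φ' : G' ≃* G'), Cls p n e G' φ' →
      derivedSeries G' s ≤ HH n w k φ')
    (G : Type u) [Group G] (φ : G ≃* G) (hC : Cls p n e G φ) :
    derivedSeries G (3 * s + 1) ≤ HH n w (k + 1) φ := by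
  have hfin := hC.fin
  have hmap : (derivedSeries G (2 * s + 1)).map (φ : G →* G) = derivedSeries G (2 * s + 1) :=
    (inv_derivedSeries φ (2 * s + 1)).map_eq
  have h1 := hCk _ _ (hC.res (derivedSeries G (2 * s + 1)) hmap)
  have h2 : 3 * s + 1 = (2 * s + 1) + s := by ring
  rw [h2, ← derivedSeries_map_subtype]
  refine (Subgroup.map_mono h1).trans ?_
  rw [Subgroup.map_le_iff_le_comap, HH, Subgroup.closure_le]
  rintro x ⟨i, hki, hin, hx⟩
  have hx' : φ (x : G) = (x : G) ^ (w ^ i) := by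
    have h3 := congrArg (Subtype.val) hx
    rw [resA_apply] at h3
    rw [h3]
    rfl
  show (x : G) ∈ HH n w (k + 1) φ
  rcases Nat.eq_or_lt_of_le hki with h | h
  · subst h
    exact stepD D hk s hCk G φ hC (x : G) x.2 hx'
  · exact mem_HH h hin hx'

/-- `C(k)` for all `k` -/
theorem chainC {p n e w v : ℕ} (D : Dat p n e w v) (k : ℕ) (hk : k < n) :
    ∀ (G : Type u) [Group G] (φ : G ≃* G), Cls p n e G φ →
      derivedSeries G ((3 ^ k - 1) / 2) ≤ HH n w (k + 1) φ := by
  induction k with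
  | zero =>
    intro G _ φ hC
    rw [baseC D G φ hC]
    exact le_top
  | succ k ih =>
    intro G _ φ hC
    have h1 := stepC D (k := k + 1) (by omega) ((3 ^ k - 1) / 2) (ih (by omega)) G φ hC
    have h2 : (3 ^ (k + 1) - 1) / 2 = 3 * ((3 ^ k - 1) / 2) + 1 := by
      have h3 : ∀ j : ℕ, ∃ c, 3 ^ j = 2 * c + 1 := by
        intro j
        induction j with
        | zero => exact ⟨0, by norm_num⟩
        | succ j ihj =>
          obtain ⟨c, hc⟩ := ihj
          exact ⟨3 * c + 1, by rw [pow_succ, hc]; ring⟩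
      obtain ⟨c, hc⟩ := h3 k
      rw [pow_succ, hc]
      omega
    rw [h2]
    exact h1

theorem pgroup {p n e w v : ℕ} (D : Dat p n e w v) (G : Type u) [Group G] (φ : G ≃* G)
    (hC : Cls p n e G φ) : derivedSeries G ((3 ^ (n - 1) - 1) / 2) = ⊥ := by
  have hn := D.hn
  have h1 := chainC D (n - 1) (by omega) G φ hC
  rw [show n - 1 + 1 = n by omega, HH_eq_bot n w n le_rfl φ] at h1
  exact le_bot_iff.1 h1

end Pool.Agent.RegA
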