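import Pool.Agent.RegA.Main
import Pool.Agent.RegA.Arith

set_option autoImplicit false

namespace Pool.Agent.RegA

universe u

/-- a Sylow subgroup of a finite nilpotent group -/
theorem nil_sylow (n : ℕ) (hn : 0 < n) (G : Type u) [Group G] [Finite G]
    (φ : MulAut G) (hφ : φ ^ n = 1) (hfix : ∀ g : G, φ g = g → g = 1) (p : ℕ) [Fact p.Prime]
    (hp : p ≡ 1 [MOD n]) (P : Sylow p G) (hP : (P : Subgroup G).Normal) :
    derivedSeries (P : Subgroup G) ((3 ^ (n - 1) - 1) / 2) = ⊥ := by
  have hch : (P : Subgroup G).Characteristic := P.characteristic_of_normal hP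
  have hmap : (P : Subgroup G).map (φ : G →* G) = P :=
    Subgroup.characteristic_iff_map_eq.1 hch φ
  obtain ⟨k, hk⟩ := IsPGroup.iff_card.1 P.isPGroup'
  obtain ⟨w, v, D⟩ := exists_dat (p := p) (n := n) (e := k + 1) Fact.out hn (Nat.succ_pos k) hp
  have hit : ∀ (c : ℕ) (x : G), (⇑φ)^[c] x = (φ ^ c) x := by
    intro c
    induction c with
    | zero =>
      intro x
      rfl
    | succ c ih =>
      intro x
      rw [Function.iterate_succ_apply, ih, pow_succ]
      rfl
  have hres : ∀ (c : ℕ) (x : (P : Subgroup G)),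
      (((⇑(resA φ (P : Subgroup G) hmap))^[c] x : (P : Subgroup G)) : G) = (⇑φ)^[c] (x : G) := by
    intro c
    induction c with
    | zero =>
      intro x
      rfl
    | succ c ih =>
      intro x
      rw [Function.iterate_succ_apply, Function.iterate_succ_apply, ih, resA_apply]
  have hC : Cls p n (k + 1) (P : Subgroup G) (resA φ (P : Subgroup G) hmap) := by
    refine ⟨inferInstance, ?_, ?_, ?_⟩
    · intro x
      rw [pow_succ, pow_mul, ← hk, pow_card_eq_one', one_pow]
    · intro x
      apply Subtype.ext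
      rw [hres, hit, hφ]
      rfl
    · intro x hx
      apply Subtype.ext
      apply hfix
      rw [← resA_apply φ (P : Subgroup G) hmap x, hx]
  exact pgroup D (P : Subgroup G) _ hC

/-- finite nilpotent groups all of whose prime divisors are `1` modulo `n` -/
theorem nilp (n : ℕ) (hn : 0 < n) (G : Type u) [Group G] [Finite G] [Group.IsNilpotent G]
    (φ : MulAut G) (hφ : φ ^ n = 1) (hfix : ∀ g : G, φ g = g → g = 1)
    (hp : ∀ p : ℕ, p.Prime → p ∣ Nat.card G → p ≡ 1 [MOD n]) :
    derivedSeries G ((3 ^ (n - 1) - 1) / 2) = ⊥ := by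
  have hnil : Group.IsNilpotent G := inferInstance
  obtain ⟨E⟩ := ((Group.isNilpotent_of_finite_tfae (G := G)).out 0 4).1 hnil
  have hnorm := ((Group.isNilpotent_of_finite_tfae (G := G)).out 0 3).1 hnil
  rw [eq_bot_iff]
  intro x hx
  have h1 : E.symm x = 1 := by
    funext p P
    have hpp : (p : ℕ).Prime := Nat.prime_of_mem_primeFactors p.2
    haveI : Fact (p : ℕ).Prime := ⟨hpp⟩
    have h2 := nil_sylow n hn G φ hφ hfix p
      (hp p hpp (Nat.dvd_of_mem_primeFactors p.2)) P (hnorm p inferInstance P)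
    set f : G →* (P : Subgroup G) :=
      ((Pi.evalMonoidHom (fun P : Sylow (p : ℕ) G => (P : Subgroup G)) P).comp
        (Pi.evalMonoidHom (fun p : (Nat.card G).primeFactors =>
          ∀ P : Sylow (p : ℕ) G, (P : Subgroup G)) p)).comp E.symm.toMonoidHom with hf
    have h3 : f x ∈ derivedSeries (P : Subgroup G) ((3 ^ (n - 1) - 1) / 2) :=
      map_derivedSeries_le_derivedSeries f _ ⟨x, hx, rfl⟩
    rw [h2] at h3
    exact Subgroup.mem_bot.1 h3
  rw [Subgroup.mem_bot]
  have h4 : E (E.symm x) = E 1 := by rw [h1]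
  rw [MulEquiv.apply_symm_apply, map_one] at h4
  exact h4

end Pool.Agent.RegA
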