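import Pool.Agent.RegA.LemG
import Pool.Agent.RegA.Lift

set_option autoImplicit false

namespace Pool.Agent.RegA

open scoped commutatorElement

universe u

/-- `U1`: in a minimal counterexample `G` to `stepD` (with element `x`) every central homogeneous
element `z` with `z ^ p = 1`, `z ≠ 1`, has degree `k` and is not in `P = HH n w (k + 1) φ`.
Proof: in `G / zpowers z` the claim holds, so (`HH_map`) `x = q * z ^ c` with `q ∈ P`. If `z ∈ P`
then `x ∈ P`, a contradiction. So the degree `i` of `z` is at most `k`. If `i < k` then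
`prf k q = x` (in the abelian invariant subgroup `zpowers x ⊔ zpowers z`: `prf_mul`,
`prf_other`) and `prf k q ∈ P` (`prf_mem`, `HH_inv`), a contradiction. -/
theorem stepU {p n e w v : ℕ} (D : Dat p n e w v) {k : ℕ} (hk : k < n) (s : ℕ)
    (G : Type u) [Group G] (φ : G ≃* G) (hC : Cls p n e G φ)
    (ih : ∀ (G' : Type u) [Group G'] (φ' : G' ≃* G'), Cls p n e G' φ' →
      Nat.card G' < Nat.card G → ∀ y ∈ derivedSeries G' (2 * s + 1), φ' y = y ^ (w ^ k) →
        y ∈ HH n w (k + 1) φ')
    (x : G) (hx : x ∈ derivedSeries G (2 * s + 1)) (hxk : φ x = x ^ (w ^ k))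
    (hxP : x ∉ HH n w (k + 1) φ) (z : G) (hz1 : z ≠ 1) (hzp : z ^ p = 1)
    (hzc : z ∈ Subgroup.center G) {i : ℕ} (hi : i < n) (hzi : φ z = z ^ (w ^ i)) :
    i = k ∧ z ∉ HH n w (k + 1) φ := by
  have := hC.fin
  have _ := hzp
  have hZc : Subgroup.zpowers z ≤ Subgroup.center G := by
    rw [Subgroup.zpowers_le]; exact hzc
  have hZn : (Subgroup.zpowers z).Normal := by
    refine ⟨fun a ha g => ?_⟩
    have := (Subgroup.mem_center_iff.mp (hZc ha)) g
    rw [this, mul_inv_cancel_right]
    exact ha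
  have hZi : Inv φ (Subgroup.zpowers z) := by
    intro y hy
    obtain ⟨c, rfl⟩ := Subgroup.mem_zpowers_iff.mp hy
    rw [map_zpow, hzi]
    exact Subgroup.zpow_mem _ (Subgroup.pow_mem _ (Subgroup.mem_zpowers z) _) _
  have hm := hZi.map_eq
  have hCq := hC.quo (Subgroup.zpowers z) hm
  have hcard : Nat.card (G ⧸ Subgroup.zpowers z) < Nat.card G := by
    rw [Subgroup.card_eq_card_quotient_mul_card_subgroup (Subgroup.zpowers z)]
    have h1 : 1 < Nat.card (Subgroup.zpowers z) := by
      rw [Nat.card_zpowers]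
      have h0 : 0 < orderOf z := orderOf_pos z
      have h2 : orderOf z ≠ 1 := fun h => hz1 (orderOf_eq_one_iff.mp h)
      omega
    have h0 : 0 < Nat.card (G ⧸ Subgroup.zpowers z) := Nat.card_pos
    exact lt_mul_of_one_lt_right h0 h1
  have hx' : QuotientGroup.mk' (Subgroup.zpowers z) x ∈
      HH n w (k + 1) (quoA φ (Subgroup.zpowers z) hm) := by
    apply ih _ _ hCq hcard
    · rw [← derivedSeries_map_mk']
      exact Subgroup.mem_map_of_mem _ hx
    · rw [quoA_mk, hxk, map_pow]
  rw [← HH_map D hC (QuotientGroup.mk' (Subgroup.zpowers z)) (QuotientGroup.mk'_surjective _)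
    (by rw [QuotientGroup.ker_mk']; exact hZc)
    (fun x => (quoA_mk φ (Subgroup.zpowers z) hm x).symm)] at hx'
  obtain ⟨q, hq, hqx⟩ := hx'
  have hqx' : ∃ c ∈ Subgroup.zpowers z, q * c = x := by
    exact (QuotientGroup.mk'_eq_mk' (Subgroup.zpowers z)).mp hqx
  obtain ⟨c, hc, hqc⟩ := hqx'
  have hzP : z ∉ HH n w (k + 1) φ := by
    intro hz
    apply hxP
    rw [← hqc]
    refine Subgroup.mul_mem _ hq ?_
    have : Subgroup.zpowers z ≤ HH n w (k + 1) φ := by
      rw [Subgroup.zpowers_le]; exact hz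
    exact this hc
  refine ⟨?_, hzP⟩
  by_contra hik
  rcases lt_or_gt_of_ne hik with h | h
  · -- `i < k`
    have hcomm : x * z = z * x := (Subgroup.mem_center_iff.mp hzc) x
    set E : Subgroup G := Subgroup.closure {x, z} with hE
    have hxE : x ∈ E := Subgroup.subset_closure (by simp)
    have hzE : z ∈ E := Subgroup.subset_closure (by simp)
    have hEi : Inv φ E := by
      intro y hy
      have hle : E ≤ E.comap (φ : G →* G) := by
        conv_lhs => rw [hE]
        rw [Subgroup.closure_le]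
        rintro y hy
        simp only [Set.mem_insert_iff, Set.mem_singleton_iff] at hy
        rcases hy with rfl | rfl
        · show (φ : G →* G) y ∈ E
          have : (φ : G →* G) y = y ^ (w ^ k) := hxk
          rw [this]
          exact Subgroup.pow_mem _ hxE _
        · show (φ : G →* G) y ∈ E
          have : (φ : G →* G) y = y ^ (w ^ i) := hzi
          rw [this]
          exact Subgroup.pow_mem _ hzE _
      exact hle hy
    have hEc : ∀ x ∈ E, ∀ y ∈ E, x * y = y * x := by
      have hcc : ∀ a ∈ ({x, z} : Set G), ∀ b ∈ ({x, z} : Set G), a * b = b * a := by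
        intro a ha b hb
        simp only [Set.mem_insert_iff, Set.mem_singleton_iff] at ha hb
        rcases ha with rfl | rfl <;> rcases hb with rfl | rfl <;>
          first | rfl | exact hcomm | exact hcomm.symm
      intro a ha b hb
      have := (Subgroup.isMulCommutative_closure hcc).is_comm.comm ⟨a, ha⟩ ⟨b, hb⟩
      exact congrArg Subtype.val this
    have hcE : c ∈ E := by
      have : Subgroup.zpowers z ≤ E := by
        rw [Subgroup.zpowers_le]; exact hzE
      exact this hc
    have hqE : q ∈ E := by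
      have : q = x * c⁻¹ := by rw [← hqc, mul_inv_cancel_right]
      rw [this]
      exact Subgroup.mul_mem _ hxE (Subgroup.inv_mem _ hcE)
    have hpc : prf n w v k φ c = 1 := by
      obtain ⟨d, rfl⟩ := Subgroup.mem_zpowers_iff.mp hc
      refine prf_other D hC hi hk (by omega) ?_
      rw [map_zpow, hzi, ← zpow_natCast, ← zpow_natCast, ← zpow_mul, ← zpow_mul, mul_comm]
    have h1 : prf n w v k φ x = prf n w v k φ q := by
      rw [← hqc, prf_mul n w v k hEi hEc hqE hcE, hpc, mul_one]
    have h2 : prf n w v k φ x = x := prf_self D hC hk hxk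
    apply hxP
    rw [← h2, h1]
    exact prf_mem n w v k (HH_inv n w (k + 1) φ) hq
  · exact hzP (mem_HH (by omega) hi hzi)

/-- the kernel `{a ∈ A | prf k a ∈ P}` as a subgroup -/
def kerP (n w v k : ℕ) {G : Type u} [Group G] (φ : G ≃* G) (A P : Subgroup G) (hA : Inv φ A)
    (hAc : ∀ x ∈ A, ∀ y ∈ A, x * y = y * x) : Subgroup G where
  carrier := {a | a ∈ A ∧ prf n w v k φ a ∈ P}
  one_mem' := ⟨A.one_mem, by rw [prf_one]; exact P.one_mem⟩
  mul_mem' := by
    rintro a b ⟨ha, ha'⟩ ⟨hb, hb'⟩
    exact ⟨A.mul_mem ha hb, by rw [prf_mul n w v k hA hAc ha hb]; exact P.mul_mem ha' hb'⟩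
  inv_mem' := by
    rintro a ⟨ha, ha'⟩
    exact ⟨A.inv_mem ha, by rw [prf_inv n w v k hA hAc ha]; exact P.inv_mem ha'⟩

theorem mem_kerP {n w v k : ℕ} {G : Type u} [Group G] {φ : G ≃* G} {A P : Subgroup G}
    {hA : Inv φ A} {hAc : ∀ x ∈ A, ∀ y ∈ A, x * y = y * x} {a : G} :
    a ∈ kerP n w v k φ A P hA hAc ↔ a ∈ A ∧ prf n w v k φ a ∈ P := Iff.rfl

/-- Lemma W: `A ≤ G` is abelian, `A = derivedSeries G t ≠ ⊥`, `t ≥ 2 s + 1`, every central
homogeneous `z ≠ 1` of order `p` has degree `k` and is outside `P = HH n w (k + 1) φ`; then we get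
a contradiction. Proof. Let `KA = {a ∈ A | prf k a ∈ P}` and `N = derivedSeries G s`
(`≤ HH n w k φ` by `hCk`). By `lemB` (`E = A`) `⁅A, N⁆ ≤ KA`; `⁅A, N⁆` is normal and invariant, so
it is `⊥` (otherwise `centr` gives a homogeneous central `z` of order `p` in it, of degree `k`, so
`z = prf k z ∈ P`). Let `W = derivedSeries G (t - 1 - s) ≤ N`. `A = derivedSeries W (s + 1)` is
central in `W`, `derivedSeries W s ≤ HH n w k` (by `hCk` for `W`). `Q = KA` is central in `W` and
invariant. In `W / Q` use `lemG` with the image of `P ⊓ W` (homogeneous elements of `W / Q` of degree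
`> k` lift by `HH_map`/`lift_elt`; if `a ∈ A`, `a = q c`, `q ∈ P`, `c ∈ Q` then `q ∈ P ⊓ A ≤ KA`;
`a` is congruent to `prf k a` modulo `Q`). So `A ≤ Q = KA`, and `centr` for `N = A` gives again a
contradiction. -/
theorem stepW {p n e w v : ℕ} (D : Dat p n e w v) {k : ℕ} (hk : k < n) (s : ℕ)
    (hCk : ∀ (G' : Type u) [Group G'] (φ' : G' ≃* G'), Cls p n e G' φ' →
      derivedSeries G' s ≤ HH n w k φ')
    (G : Type u) [Group G] (φ : G ≃* G) (hC : Cls p n e G φ) (t : ℕ) (ht : 2 * s + 1 ≤ t)
    (hA : derivedSeries G t ≠ ⊥) (hA' : derivedSeries G (t + 1) = ⊥)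
    (hU : ∀ z : G, z ≠ 1 → z ^ p = 1 → z ∈ Subgroup.center G → ∀ i, i < n →
      φ z = z ^ (w ^ i) → i = k ∧ z ∉ HH n w (k + 1) φ) : False := by
  have := hC.fin
  -- the abelian group `A`
  have hAi : Inv φ (derivedSeries G t) := inv_derivedSeries φ t
  have hAc : ∀ x ∈ derivedSeries G t, ∀ y ∈ derivedSeries G t, x * y = y * x := by
    intro x hx y hy
    have h : ⁅x, y⁆ ∈ derivedSeries G (t + 1) := by
      rw [derivedSeries_succ]
      exact Subgroup.commutator_mem_commutator hx hy
    rw [hA', Subgroup.mem_bot, commutatorElement_eq_one_iff_mul_comm] at h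
    exact h
  set P : Subgroup G := HH n w (k + 1) φ with hP
  have hPi : Inv φ P := HH_inv n w (k + 1) φ
  set K : Subgroup G := kerP n w v k φ (derivedSeries G t) P hAi hAc with hK
  have hKA : K ≤ derivedSeries G t := fun a ha => ha.1
  -- a normal invariant subgroup inside `K` is trivial
  have hno : ∀ (N : Subgroup G) [N.Normal], Inv φ N → N ≤ K → N = ⊥ := by
    intro N _ hN hNK
    by_contra hne
    obtain ⟨z, hzN, hz1, hzp, hzc, i, -, hi, hzi⟩ := centr D hC N hN hne
    obtain ⟨hik, hzP⟩ := hU z hz1 hzp hzc i hi hzi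
    subst hik
    apply hzP
    have := (hNK hzN).2
    rwa [prf_self D hC hi hzi] at this
  -- `A` centralizes `derivedSeries G s`
  have hAN : ⁅derivedSeries G t, derivedSeries G s⁆ = ⊥ := by
    have : (⁅derivedSeries G t, derivedSeries G s⁆).Normal := Subgroup.commutator_normal _ _
    apply hno
    · intro y hy
      have hle : ⁅derivedSeries G t, derivedSeries G s⁆ ≤
          (⁅derivedSeries G t, derivedSeries G s⁆).comap (φ : G →* G) := by
        conv_lhs => rw [Subgroup.commutator_def]
        rw [Subgroup.closure_le]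
        rintro _ ⟨a, ha, b, hb, rfl⟩
        show (φ : G →* G) ⁅a, b⁆ ∈ ⁅derivedSeries G t, derivedSeries G s⁆
        rw [map_commutatorElement]
        exact Subgroup.commutator_mem_commutator (inv_derivedSeries φ t a ha)
          (inv_derivedSeries φ s b hb)
      exact hle hy
    · rw [Subgroup.commutator_le]
      intro a ha b hb
      refine ⟨?_, ?_⟩
      · have h1 : ⁅a, b⁆ = a * (b * a⁻¹ * b⁻¹) := by
          rw [commutatorElement_def]; group
        rw [h1]
        refine Subgroup.mul_mem _ ha ?_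
        exact (derivedSeries_normal G t).conj_mem _ (Subgroup.inv_mem _ ha) b
      · rw [commutatorElement_def]
        exact lemB D hC hk P hPi (fun x i h1 h2 h3 => mem_HH (by omega) h2 h3)
          (derivedSeries G t) hAi hAc ha (hCk G φ hC hb)
  have hcom : ∀ a ∈ derivedSeries G t, ∀ b ∈ derivedSeries G s, a * b = b * a := by
    intro a ha b hb
    have h : ⁅a, b⁆ ∈ ⁅derivedSeries G t, derivedSeries G s⁆ :=
      Subgroup.commutator_mem_commutator ha hb
    rw [hAN, Subgroup.mem_bot, commutatorElement_eq_one_iff_mul_comm] at h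
    exact h
  -- the group `W`
  have hWN : derivedSeries G (t - 1 - s) ≤ derivedSeries G s :=
    derivedSeries_antitone (G := G) (by omega)
  have hAW : derivedSeries G t ≤ derivedSeries G (t - 1 - s) :=
    derivedSeries_antitone (G := G) (by omega)
  have hWi : Inv φ (derivedSeries G (t - 1 - s)) := inv_derivedSeries φ _
  have hmap : (derivedSeries (derivedSeries G (t - 1 - s)) (s + 1)).map
      (derivedSeries G (t - 1 - s)).subtype = derivedSeries G t := by
    rw [derivedSeries_map_subtype]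
    congr 1
    omega
  revert hWN hAW hWi hmap
  generalize derivedSeries G (t - 1 - s) = W
  intro hWN hAW hWi hmap
  have hWm := hWi.map_eq
  have hCW := hC.res W hWm
  have := hCW.fin
  set ψ : W ≃* W := resA φ W hWm with hψ
  set Q : Subgroup W := K.subgroupOf W with hQ
  have hQc : Q ≤ Subgroup.center W := by
    intro a ha
    rw [Subgroup.mem_center_iff]
    intro b
    apply Subtype.ext
    exact (hcom a.1 (hKA ha) b.1 (hWN b.2)).symm
  have hQn : Q.Normal := by
    refine ⟨fun a ha g => ?_⟩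
    have := (Subgroup.mem_center_iff.mp (hQc ha)) g
    rw [this, mul_inv_cancel_right]
    exact ha
  have hQi : Inv ψ Q := by
    intro a ha
    have ha' : (a : G) ∈ derivedSeries G t ∧ prf n w v k φ (a : G) ∈ P := ha
    show φ (a : G) ∈ derivedSeries G t ∧ prf n w v k φ (φ (a : G)) ∈ P
    refine ⟨hAi _ ha'.1, ?_⟩
    have h1 := prf_map n w v k φ φ (φ : G →* G) (fun x => rfl) (a : G)
    have h2 : prf n w v k φ (φ (a : G)) = φ (prf n w v k φ (a : G)) := h1.symm
    rw [h2]
    exact hPi _ ha'.2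
  have hQm := hQi.map_eq
  have hCQ := hCW.quo Q hQm
  have hpm : ∀ a : W, (a : G) ∈ derivedSeries G t → prf n w v k φ (a : G) ∈ W := by
    intro a _
    exact prf_mem n w v k hWi a.2
  have hdm : ∀ x ∈ derivedSeries (W ⧸ Q) (s + 1), ∃ a : W, (a : G) ∈ derivedSeries G t ∧
      QuotientGroup.mk' Q a = x := by
    intro x hx
    rw [← derivedSeries_map_mk'] at hx
    obtain ⟨a, ha, rfl⟩ := hx
    refine ⟨a, ?_, rfl⟩
    rw [← hmap]
    exact ⟨a, ha, rfl⟩
  have key : derivedSeries (W ⧸ Q) (s + 1) = ⊥ := by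
    apply lemG D hCQ hk s (hCk _ _ hCQ) ((P.subgroupOf W).map (QuotientGroup.mk' Q))
    · -- invariance
      rintro _ ⟨y, hy, rfl⟩
      exact ⟨ψ y, hPi _ hy, rfl⟩
    · -- homogeneous elements of larger degree
      intro x i h1 h2 h3
      have hx : x ∈ HH n w (k + 1) (quoA ψ Q hQm) := mem_HH (by omega) h2 h3
      rw [← HH_map D hCW (QuotientGroup.mk' Q) (QuotientGroup.mk'_surjective Q)
        (by rw [QuotientGroup.ker_mk']; exact hQc)
        (fun x => (quoA_mk ψ Q hQm x).symm) (k + 1)] at hx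
      refine Subgroup.map_mono ?_ hx
      unfold HH
      rw [Subgroup.closure_le]
      rintro y ⟨j, h1, h2, h3⟩
      exact mem_HH h1 h2 (congrArg Subtype.val h3)
    · -- central
      intro x hx
      obtain ⟨a, ha, rfl⟩ := hdm x hx
      rw [Subgroup.mem_center_iff]
      intro g
      obtain ⟨b, rfl⟩ := QuotientGroup.mk'_surjective Q g
      rw [← map_mul, ← map_mul]
      congr 1
      apply Subtype.ext
      exact (hcom a.1 ha b.1 (hWN b.2)).symm
    · -- disjoint
      rw [eq_bot_iff]
      rintro x ⟨⟨q, hq, hqx⟩, hx⟩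
      obtain ⟨a, ha, rfl⟩ := hdm x hx
      have h1 : q⁻¹ * a ∈ Q := by
        rw [← QuotientGroup.eq_one_iff]
        have : QuotientGroup.mk' Q (q⁻¹ * a) = 1 := by
          rw [map_mul, map_inv, hqx, inv_mul_cancel]
        exact this
      have hqP : (q : G) ∈ P := hq
      have h1' : (q : G)⁻¹ * (a : G) ∈ derivedSeries G t := hKA h1
      have hqA : (q : G) ∈ derivedSeries G t := by
        have h2 : (q : G) = (a : G) * ((q : G)⁻¹ * (a : G))⁻¹ := by group
        rw [h2]
        exact Subgroup.mul_mem _ ha (Subgroup.inv_mem _ h1')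
      have hqQ : q ∈ Q := by
        show (q : G) ∈ derivedSeries G t ∧ prf n w v k φ (q : G) ∈ P
        exact ⟨hqA, prf_mem n w v k hPi hqP⟩
      have haQ : a ∈ Q := by
        have h2 : a = q * (q⁻¹ * a) := by group
        rw [h2]
        exact Q.mul_mem hqQ h1
      rw [Subgroup.mem_bot]
      exact (QuotientGroup.eq_one_iff a).mpr haQ
    · -- degree `k`
      intro x hx
      obtain ⟨a, ha, rfl⟩ := hdm x hx
      set b : W := ⟨prf n w v k φ (a : G), hpm a ha⟩ with hb
      have hbA : (b : G) ∈ derivedSeries G t := prf_mem n w v k hAi ha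
      have hbk : φ (b : G) = (b : G) ^ (w ^ k) := prf_hom D hC hAi hAc hk ha
      have hbψ : ψ b = b ^ (w ^ k) := Subtype.ext hbk
      have hab : b⁻¹ * a ∈ Q := by
        show (b : G)⁻¹ * (a : G) ∈ derivedSeries G t ∧ prf n w v k φ ((b : G)⁻¹ * (a : G)) ∈ P
        refine ⟨Subgroup.mul_mem _ (Subgroup.inv_mem _ hbA) ha, ?_⟩
        rw [prf_mul n w v k hAi hAc (Subgroup.inv_mem _ hbA) ha, prf_inv n w v k hAi hAc hbA,
          prf_self D hC hk hbk]
        have : (b : G)⁻¹ * prf n w v k φ (a : G) = 1 := by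
          show (prf n w v k φ (a : G))⁻¹ * prf n w v k φ (a : G) = 1
          group
        rw [this]
        exact P.one_mem
      have h1 : QuotientGroup.mk' Q a = QuotientGroup.mk' Q b := by
        rw [eq_comm, QuotientGroup.mk'_eq_mk']
        exact ⟨b⁻¹ * a, hab, by group⟩
      rw [h1, quoA_mk, hbψ, map_pow]
  have hAK : derivedSeries G t ≤ K := by
    intro a ha
    have h1 : (⟨a, hAW ha⟩ : W) ∈ derivedSeries W (s + 1) := by
      have ha' := ha
      rw [← hmap] at ha'
      obtain ⟨b, hb, hba⟩ := ha'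
      have : (⟨a, hAW ha⟩ : W) = b := Subtype.ext hba.symm
      rw [this]
      exact hb
    have h2 : QuotientGroup.mk' Q (⟨a, hAW ha⟩ : W) ∈ derivedSeries (W ⧸ Q) (s + 1) := by
      rw [← derivedSeries_map_mk']
      exact Subgroup.mem_map_of_mem _ h1
    rw [key, Subgroup.mem_bot] at h2
    exact (QuotientGroup.eq_one_iff (⟨a, hAW ha⟩ : W)).mp h2
  exact hA (hno (derivedSeries G t) hAi hAK)

/-- Strong induction on `Nat.card G` from `stepU` and `stepW` (`t` maximal with
`derivedSeries G t ≠ ⊥`; the derived series reaches `⊥` since a finite `p`-group is soluble). -/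
theorem stepD {p n e w v : ℕ} (D : Dat p n e w v) {k : ℕ} (hk : k < n) (s : ℕ)
    (hCk : ∀ (G' : Type u) [Group G'] (φ' : G' ≃* G'), Cls p n e G' φ' →
      derivedSeries G' s ≤ HH n w k φ')
    (G : Type u) [Group G] (φ : G ≃* G) (hC : Cls p n e G φ) (x : G)
    (hx : x ∈ derivedSeries G (2 * s + 1)) (hxk : φ x = x ^ (w ^ k)) :
    x ∈ HH n w (k + 1) φ := by
  suffices H : ∀ m : ℕ, ∀ (G : Type u) [Group G] (φ : G ≃* G), Cls p n e G φ →
      Nat.card G = m → ∀ x ∈ derivedSeries G (2 * s + 1), φ x = x ^ (w ^ k) →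
        x ∈ HH n w (k + 1) φ from H _ G φ hC rfl x hx hxk
  intro m
  induction m using Nat.strong_induction_on with
  | _ m ih =>
  intro G _ φ hC hm x hx hxk
  by_contra hxP
  have := hC.fin
  have : Fact p.Prime := ⟨D.hp⟩
  have : Group.IsNilpotent G := hC.isPGroup.isNilpotent
  have hsol : ∃ r, derivedSeries G r = ⊥ := (Group.isSolvable_def G).mp inferInstance
  classical
  have hr := Nat.find_spec hsol
  have hrm : ∀ r', r' < Nat.find hsol → derivedSeries G r' ≠ ⊥ := fun r' h => Nat.find_min hsol h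
  revert hr hrm
  generalize Nat.find hsol = r
  intro hr hrm
  have hlt : 2 * s + 1 < r := by
    by_contra hle
    have h1 : derivedSeries G (2 * s + 1) ≤ derivedSeries G r :=
      derivedSeries_antitone (G := G) (by omega)
    have h2 := h1 hx
    rw [hr, Subgroup.mem_bot] at h2
    exact hxP (h2 ▸ Subgroup.one_mem _)
  refine stepW D hk s hCk G φ hC (r - 1) (by omega) (hrm _ (by omega)) ?_ ?_
  · rw [Nat.sub_add_cancel (by omega)]
    exact hr
  · intro z hz1 hzp hzc i hi hzi
    refine stepU D hk s G φ hC ?_ x hx hxk hxP z hz1 hzp hzc hi hzi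
    intro G' _ φ' hC' hcard y hy hyk
    exact ih (Nat.card G') (by omega) G' φ' hC' rfl y hy hyk

end Pool.Agent.RegA
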